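import Pool.Agent.NH98.TG.Stm

set_option autoImplicit false

namespace Pool.Agent.NH98.TG.Coc

open Classical in
/-- products along the iterates of `nxt` -/
noncomputable def Phi {V H : Type} [Group H] (y : V → V → H) (v0 : V) (nxt : V → V) : ℕ → V → H
  | 0, _ => 1
  | n + 1, v => if v = v0 then 1 else Phi y v0 nxt n (nxt v) * y (nxt v) v

theorem Phi_succ {V H : Type} [Group H] (y : V → V → H) (v0 : V) (nxt : V → V) (n : ℕ) {v : V}
    (h : v ≠ v0) : Phi y v0 nxt (n + 1) v = Phi y v0 nxt n (nxt v) * y (nxt v) v := if_neg h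

theorem w_self {V H : Type} [Group H] {w : V → V → H} (hw : ∀ a b c, w a b * w b c = w a c) (a : V) :
    w a a = 1 := by
  have := hw a a a
  exact mul_eq_left.1 this

end Pool.Agent.NH98.TG.Coc

namespace Pool.Agent.NH98.TG

open Coc

theorem t_coc : S_COC := by
  intro V d hd H _ y hy
  rcases isEmpty_or_nonempty V with hV | ⟨⟨v0⟩⟩
  · exact ⟨fun a => hV.elim a, fun a => hV.elim a, fun a => hV.elim a⟩
  have hn : ∀ v : V, ∃ z : V, v ≠ v0 → (d v z = 1 ∧ d z v0 + 1 = d v v0) ∧
      ∀ z', d v z' = 1 → d z' v0 + 1 = d v v0 → z' = z := by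
    intro v
    by_cases h : v = v0
    · exact ⟨v, fun h' => absurd h h'⟩
    · obtain ⟨z, hz⟩ := hd.step v v0 h
      exact ⟨z, fun _ => hz⟩
  choose nxt hnxt using hn
  set phi : V → H := fun v => Phi y v0 nxt (d v v0) v with hphi
  have hrec : ∀ v, v ≠ v0 → phi v = phi (nxt v) * y (nxt v) v := by
    intro v hv
    have h1 := (hnxt v hv).1.2
    show Phi y v0 nxt (d v v0) v = Phi y v0 nxt (d (nxt v) v0) (nxt v) * y (nxt v) v
    rw [← h1, Phi_succ y _ nxt _ hv]
  have hne : ∀ v, d v v0 ≠ 0 → v ≠ v0 := fun v hv h => hv ((hd.eq_iff v v0).2 h)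
  refine ⟨fun a b => (phi a)⁻¹ * phi b, ?_, ?_⟩
  · intro a b hab
    show (phi a)⁻¹ * phi b = y a b
    rcases hd.adj a b v0 hab with h | h
    · have ha : a ≠ v0 := hne a (by omega)
      have hb : b = nxt a := (hnxt a ha).2 b hab h
      have h2 := hrec a ha
      rw [← hb, hy a b hab] at h2
      rw [h2]
      group
    · have hb : b ≠ v0 := hne b (by omega)
      have hba : d b a = 1 := by rw [hd.symm, hab]
      have ha : a = nxt b := (hnxt b hb).2 a hba h.symm
      have h2 := hrec b hb
      rw [← ha] at h2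
      rw [h2]
      group
  · intro a b c
    show (phi a)⁻¹ * phi b * ((phi b)⁻¹ * phi c) = (phi a)⁻¹ * phi c
    group

theorem t_eqv : S_EQV := by
  intro V d hd H _ w hw σ τ _ hedge
  have key : ∀ n : ℕ, ∀ a b, d a b = n → σ (w a b) = w (τ a) (τ b) := by
    intro n
    induction n with
    | zero =>
      intro a b hab
      have := (hd.eq_iff a b).1 hab
      subst this
      rw [w_self hw, w_self hw, map_one]
    | succ n ih =>
      intro a b hab
      have hne : a ≠ b := by
        intro h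
        rw [(hd.eq_iff a b).2 h] at hab
        omega
      obtain ⟨z, ⟨h1, h2⟩, -⟩ := hd.step a b hne
      rw [← hw a z b, map_mul, hedge a z h1, ih z b (by omega), hw]
  exact fun a b => key _ a b rfl

end Pool.Agent.NH98.TG
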