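import Pool.Agent.NH98.TG.Stm

/-!
TG-16: affine curves with one place at infinity.
-/

set_option autoImplicit false

namespace Pool.Agent.NH98.TG

namespace CurveAux

/-- The powers of a proper ideal of a Noetherian domain meet a finite-dimensional space in zero
from some point on. -/
theorem exists_pow {K A : Type} [Field K] [CommRing A] [IsDomain A] [IsNoetherianRing A]
    [Algebra K A] (W : Submodule K A) [Module.Finite K W] (I : Ideal A) (hI : I ≠ ⊤) :
    ∃ k : ℕ, ∀ a ∈ W, a ∈ I ^ (k + 1) → a = 0 := by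
  have hanti : ∀ i j : ℕ, i ≤ j →
      Submodule.comap W.subtype ((I ^ j).restrictScalars K) ≤
        Submodule.comap W.subtype ((I ^ i).restrictScalars K) := by
    intro i j hij x hx
    exact Ideal.pow_le_pow_right hij hx
  obtain ⟨k, hk⟩ := IsArtinian.monotone_stabilizes
    (⟨fun i => OrderDual.toDual
        (Submodule.comap W.subtype ((I ^ i).restrictScalars K)),
      fun i j hij => hanti i j hij⟩ : ℕ →o (Submodule K W)ᵒᵈ)
  refine ⟨k, fun a haW haI => ?_⟩
  have hall : ∀ i : ℕ, a ∈ I ^ i := by
    intro i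
    have hak : (⟨a, haW⟩ : W) ∈
        Submodule.comap W.subtype ((I ^ k).restrictScalars K) :=
      Ideal.pow_le_pow_right (Nat.le_succ k) haI
    rcases le_total k i with h | h
    · have h1 := hk i h
      have h2 : Submodule.comap W.subtype ((I ^ k).restrictScalars K) =
          Submodule.comap W.subtype ((I ^ i).restrictScalars K) := h1
      rw [h2] at hak
      exact hak
    · exact Ideal.pow_le_pow_right h hak
  have h3 : a ∈ ⨅ i : ℕ, I ^ i := by
    rw [Submodule.mem_iInf]
    exact hall
  rw [Ideal.iInf_pow_eq_bot_of_isDomain I hI] at h3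
  exact h3

end CurveAux

theorem t_curve (hpow : S_POW) (hmain : S_MAIN) : S_CURVE := by
  intro C hC hsol K A F _ _ _ _ _ _ ι hι v hv hW I hI hCI
  refine hmain C hC A F ι hι v hv fun n => ?_
  obtain ⟨W, hWf, hWa⟩ := hW n
  obtain ⟨k, hk⟩ := CurveAux.exists_pow W I hI
  refine ⟨I ^ (k + 1), fun a ha h0 => ?_, hpow C hC hsol A I hCI k⟩
  by_contra hlt
  exact h0 (hk a (hWa a (Or.inr (not_lt.1 hlt))) ha)

end Pool.Agent.NH98.TG
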