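import Pool.Agent.NH98.TG.Stm

/-!
# Project TG, TG-9: the length function on `GL₂`. Written by helper71.
-/

set_option autoImplicit false

namespace Pool.Agent.NH98.TG

namespace DelL

theorem det_ne {F : Type} [Field F] (g : GL (Fin 2) F) : g.1.det ≠ 0 := by
  have h2 : IsUnit g.1.det := (Matrix.isUnit_iff_isUnit_det _).1 g.isUnit
  exact h2.ne_zero

theorem inv_entry {F : Type} [Field F] (g : GL (Fin 2) F) (i j : Fin 2) :
    (g⁻¹ : GL (Fin 2) F) i j = (g.1.det)⁻¹ * (Matrix.adjugate g.1) i j := by
  have h1 : ((g⁻¹ : GL (Fin 2) F) : Matrix (Fin 2) (Fin 2) F) = (g.1)⁻¹ :=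
    Matrix.coe_units_inv g
  rw [h1, Matrix.inv_def, Ring.inverse_eq_inv', Matrix.smul_apply, smul_eq_mul]

end DelL

open DelL

theorem t_del (hge : S_GE) (hmm : S_MM) : S_DEL := by
  intro F _ v hv
  obtain ⟨h1, hm1, hadd, hmul, hneg, hmono, hinv, hdiv⟩ := hge F v hv
  have hvm := hv.1
  have hMM := hmm F v hv
  have hself : ∀ x : F, ge v (v x) x := fun x => Or.inr le_rfl
  have hent : ∀ g : GL (Fin 2) F, ∀ i j, ge v (mm v g) (g i j) := fun g => (hMM g _).2 le_rfl
  have hsub : ∀ k x y, ge v k x → ge v k y → ge v k (x - y) := by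
    intro k x y hx hy
    rw [sub_eq_add_neg]
    exact hadd k x (-y) hx (hneg k y hy)
  have hdet : ∀ g h : GL (Fin 2) F, v ((g * h).1.det) = v (g.1.det) + v (h.1.det) := by
    intro g h
    have : (g * h).1.det = g.1.det * h.1.det := Matrix.det_mul g.1 h.1
    rw [this]
    exact hvm _ _ (det_ne g) (det_ne h)
  have hdet1 : v ((1 : GL (Fin 2) F).1.det) = 0 := by
    have : (1 : GL (Fin 2) F).1.det = 1 := Matrix.det_one
    rw [this, h1]
  have hdeti : ∀ g : GL (Fin 2) F, v ((g⁻¹).1.det) = - v (g.1.det) := by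
    intro g
    have h2 := hdet g g⁻¹
    rw [mul_inv_cancel, hdet1] at h2
    omega
  have hmm1 : mm v (1 : GL (Fin 2) F) = 0 := by
    apply le_antisymm
    · have h2 := hent 1 0 0
      have h3 : (1 : GL (Fin 2) F) 0 0 = 1 := by simp
      rw [h3] at h2
      rw [← h1]
      exact h2.resolve_left one_ne_zero
    · rw [← hMM]
      intro i j
      have h3 : (1 : GL (Fin 2) F) i j = if i = j then 1 else 0 := by
        show (1 : Matrix (Fin 2) (Fin 2) F) i j = _
        exact Matrix.one_apply
      rw [h3]
      split_ifs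
      · exact Or.inr h1.ge
      · exact Or.inl rfl
  have hmmi : ∀ g : GL (Fin 2) F, mm v g⁻¹ = mm v g - v (g.1.det) := by
    intro g
    apply eq_of_forall_le_iff
    intro k
    rw [← hMM, le_sub_iff_add_le, ← hMM]
    have hD := det_ne g
    have hDi : ge v (- v (g.1.det)) (g.1.det)⁻¹ := by
      right
      rw [hinv _ hD]
    have key : ∀ x : F, ge v k ((g.1.det)⁻¹ * x) ↔ ge v (k + v (g.1.det)) x := by
      intro x
      constructor
      · intro h
        have h2 := hdiv k _ x h (inv_ne_zero hD)
        rw [hinv _ hD, sub_neg_eq_add] at h2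
        exact h2
      · intro h
        have h2 := hmul _ _ _ _ hDi h
        rw [show - v (g.1.det) + (k + v (g.1.det)) = k by ring] at h2
        exact h2
    have hadj : ∀ i j, Matrix.adjugate g.1 i j =
        !![g.1 1 1, -g.1 0 1; -g.1 1 0, g.1 0 0] i j := by
      intro i j
      rw [Matrix.adjugate_fin_two]
    constructor
    · intro h
      have h' : ∀ i j, ge v (k + v (g.1.det)) (Matrix.adjugate g.1 i j) := by
        intro i j
        rw [← key, ← inv_entry]
        exact h i j
      intro i j
      have e00 := h' 0 0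
      have e01 := h' 0 1
      have e10 := h' 1 0
      have e11 := h' 1 1
      rw [hadj] at e00 e01 e10 e11
      simp only [Matrix.of_apply, Matrix.cons_val', Matrix.cons_val_zero, Matrix.cons_val_one,
        Matrix.cons_val_fin_one] at e00 e01 e10 e11
      have n01 := hneg _ _ e01
      have n10 := hneg _ _ e10
      rw [neg_neg] at n01 n10
      fin_cases i <;> fin_cases j
      · exact e11
      · exact n01
      · exact n10
      · exact e00
    · intro h i j
      rw [inv_entry, key, hadj]
      fin_cases i <;> fin_cases j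
      · exact h 1 1
      · exact hneg _ _ (h 0 1)
      · exact hneg _ _ (h 1 0)
      · exact h 0 0
  have hmmm : ∀ g h : GL (Fin 2) F, mm v g + mm v h ≤ mm v (g * h) := by
    intro g h
    rw [← hMM]
    intro i j
    have h2 : (g * h) i j = g i 0 * h 0 j + g i 1 * h 1 j := by
      show (g.1 * h.1) i j = _
      rw [Matrix.mul_apply, Fin.sum_univ_two]
    rw [h2]
    exact hadd _ _ _ (hmul _ _ _ _ (hent g i 0) (hent h 0 j))
      (hmul _ _ _ _ (hent g i 1) (hent h 1 j))
  refine ⟨?_, ?_, hmmi, ?_, hmmm, ?_, ?_⟩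
  · intro g
    have h2 : ge v (mm v g + mm v g) (g.1.det) := by
      rw [Matrix.det_fin_two]
      exact hsub _ _ _ (hmul _ _ _ _ (hent g 0 0) (hent g 1 1))
        (hmul _ _ _ _ (hent g 0 1) (hent g 1 0))
    have h3 := h2.resolve_left (det_ne g)
    unfold del
    omega
  · unfold del
    rw [hdet1, hmm1]
    norm_num
  · intro g
    unfold del
    rw [hdeti, hmmi]
    ring
  · intro g h
    unfold del
    rw [hdet]
    have := hmmm g h
    omega
  · intro g h
    unfold del
    rw [hdet]
    refine ⟨v (g.1.det) + v (h.1.det) - mm v (g * h) - mm v g - mm v h, ?_⟩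
    ring

end Pool.Agent.NH98.TG
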