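import Pool.Agent.NH98.TG.Stm
import Pool.Agent.Y961.FJ.Perm
import Pool.Agent.Y529.FJ.Ext

/-!
# Project TG, TG-4: the embedding in a semidirect product. Written by helper71.
-/

set_option autoImplicit false

namespace Pool.Agent.NH98.TG

open Pool.Agent.Y110.FJ

namespace EmbL

variable {G : Type} [Group G] (N : Subgroup G) [N.Normal] (V : Type) [MulAction G V]

/-- the orbits of `N` on the pairs of vertices -/
def orbS : Setoid (V × V) where
  r p q := ∃ n ∈ N, n • p.1 = q.1 ∧ n • p.2 = q.2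
  iseqv := by
    constructor
    · intro p
      exact ⟨1, N.one_mem, one_smul _ _, one_smul _ _⟩
    · rintro p q ⟨n, hn, h1, h2⟩
      exact ⟨n⁻¹, N.inv_mem hn, by rw [← h1, inv_smul_smul], by rw [← h2, inv_smul_smul]⟩
    · rintro p q r ⟨n, hn, h1, h2⟩ ⟨m, hm, h3, h4⟩
      exact ⟨m * n, N.mul_mem hm hn, by rw [mul_smul, h1, h3], by rw [mul_smul, h2, h4]⟩

/-- the orbits -/
def OX : Type := Quotient (orbS N V)

variable {V}

/-- the orbit of a pair -/
def ee (a b : V) : OX N V := Quotient.mk (orbS N V) (a, b)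

theorem ee_eq {a b a' b' : V} : ee N a b = ee N a' b' ↔ ∃ n ∈ N, n • a = a' ∧ n • b = b' := by
  constructor
  · intro h
    exact Quotient.exact h
  · intro h
    exact Quotient.sound h

theorem ee_surj (x : OX N V) : ∃ a b, ee N a b = x := by
  obtain ⟨⟨a, b⟩, h⟩ := Quotient.exists_rep x
  exact ⟨a, b, h⟩

variable (V)

/-- the action of the group on the orbits -/
instance actG : MulAction G (OX N V) where
  smul g := Quotient.map' (s₁ := orbS N V) (s₂ := orbS N V) (fun p => (g • p.1, g • p.2)) (by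
    rintro p q ⟨n, hn, h1, h2⟩
    refine ⟨g * n * g⁻¹, Subgroup.Normal.conj_mem inferInstance n hn g, ?_, ?_⟩
    · show (g * n * g⁻¹) • g • p.1 = g • q.1
      rw [← h1, smul_smul, inv_mul_cancel_right, mul_smul]
    · show (g * n * g⁻¹) • g • p.2 = g • q.2
      rw [← h2, smul_smul, inv_mul_cancel_right, mul_smul])
  one_smul x := by
    obtain ⟨a, b, rfl⟩ := ee_surj N x
    show ee N ((1 : G) • a) ((1 : G) • b) = ee N a b
    rw [one_smul, one_smul]
  mul_smul g h x := by
    obtain ⟨a, b, rfl⟩ := ee_surj N x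
    show ee N ((g * h) • a) ((g * h) • b) = ee N (g • h • a) (g • h • b)
    rw [mul_smul, mul_smul]

theorem smul_ee (g : G) (a b : V) : g • ee N a b = ee N (g • a) (g • b) := rfl

/-- the action of the quotient -/
instance actQ : MulAction (G ⧸ N) (OX N V) :=
  MulAction.compHom (OX N V) (QuotientGroup.lift N (MulAction.toPermHom G (OX N V)) (by
    intro n hn
    rw [MonoidHom.mem_ker]
    apply Equiv.ext
    intro x
    obtain ⟨a, b, rfl⟩ := ee_surj N x
    show n • ee N a b = ee N a b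
    rw [smul_ee, ee_eq]
    exact ⟨n⁻¹, N.inv_mem hn, inv_smul_smul _ _, inv_smul_smul _ _⟩))

theorem mk_smul_ee (g : G) (a b : V) :
    (g : G ⧸ N) • ee N a b = ee N (g • a) (g • b) := rfl

end EmbL

open EmbL

theorem t_emb (hcoc : S_COC) (heqv : S_EQV) (hred : S_RED) : S_EMB := by
  intro C hC V d hd G P _ _ _ f hCP hisom hinv v₀ S hv₀ hseg hfree
  let N : Subgroup G := f.ker
  have hmemN : ∀ n, n ∈ N ↔ f n = 1 := fun n => MonoidHom.mem_ker
  have hCQ : C (G ⧸ N) := hC.base.of_injective (G ⧸ N) P (QuotientGroup.kerLift f)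
    (QuotientGroup.kerLift_injective f) hCP
  let X : Type := OX N V
  let y : V → V → FreeGroup X := fun a b =>
    FreeGroup.of (ee N a b) * (FreeGroup.of (ee N b a))⁻¹
  obtain ⟨w, hwy, hww⟩ := hcoc V d hd (FreeGroup X) y (by
    intro a b _
    show FreeGroup.of (ee N b a) * (FreeGroup.of (ee N a b))⁻¹ =
      (FreeGroup.of (ee N a b) * (FreeGroup.of (ee N b a))⁻¹)⁻¹
    rw [mul_inv_rev, inv_inv])
  have hw1 : ∀ a, w a a = 1 := by
    intro a
    have := hww a a a
    exact mul_eq_left.1 this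
  have hperm : ∀ (q : G ⧸ N) (x : X), permAut X (G ⧸ N) q (FreeGroup.of x) =
      FreeGroup.of (q • x) := by
    intro q x
    show FreeGroup.freeGroupCongr (MulAction.toPerm q) (FreeGroup.of x) = _
    simp
  have hy : ∀ (g : G) (a b : V), permAut X (G ⧸ N) (g : G ⧸ N) (y a b) = y (g • a) (g • b) := by
    intro g a b
    show permAut X (G ⧸ N) (g : G ⧸ N) (FreeGroup.of (ee N a b) * (FreeGroup.of (ee N b a))⁻¹) = _
    rw [map_mul, map_inv, hperm, hperm, mk_smul_ee, mk_smul_ee]
  have hσ : ∀ (g : G) (a b : V), permAut X (G ⧸ N) (g : G ⧸ N) (w a b) =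
      w (g • a) (g • b) := by
    intro g
    refine heqv V d hd (FreeGroup X) w hww (permAut X (G ⧸ N) (g : G ⧸ N)).toMonoidHom
      (fun v => g • v) (hisom g) ?_
    intro a b hab
    show permAut X (G ⧸ N) (g : G ⧸ N) (w a b) = w (g • a) (g • b)
    rw [hwy a b hab, hwy (g • a) (g • b) (by rw [hisom, hab]), hy]
  let Θ : G →* FreeGroup X ⋊[permAut X (G ⧸ N)] (G ⧸ N) :=
    { toFun := fun g => ⟨w v₀ (g • v₀), (g : G ⧸ N)⟩
      map_one' := by
        apply SemidirectProduct.ext
        · show w v₀ ((1 : G) • v₀) = 1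
          rw [one_smul, hw1]
        · rfl
      map_mul' := by
        intro g h
        apply SemidirectProduct.ext
        · show w v₀ ((g * h) • v₀) = w v₀ (g • v₀) * permAut X (G ⧸ N) (g : G ⧸ N) (w v₀ (h • v₀))
          rw [hσ, hww, mul_smul]
        · rfl }
  have hΘ : Function.Injective Θ := by
    rw [injective_iff_map_eq_one]
    intro g hg
    have hl : w v₀ (g • v₀) = 1 := congrArg SemidirectProduct.left hg
    have hr : (g : G ⧸ N) = 1 := congrArg SemidirectProduct.right hg
    have hgN : f g = 1 := by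
      rw [← hmemN, ← QuotientGroup.eq_one_iff]
      exact hr
    by_cases hv : g • v₀ = v₀
    · exact hfree v₀ hv₀ g hv hgN
    · exfalso
      refine hred V d hd X (ee N) S ?_ ?_ w hwy hww v₀ (g • v₀) (Ne.symm hv) (hseg g) hl
      · intro a _ b _ hab h
        obtain ⟨n, _, h1, h2⟩ := (ee_eq N).1 h
        exact hinv n a b hab h1 h2
      · intro a ha b _ c _ _ _ hbc h
        obtain ⟨n, hn, h1, h2⟩ := (ee_eq N).1 h
        have h3 := hfree a ha n h1 ((hmemN n).1 hn)
        rw [h3, one_smul] at h2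
        exact hbc h2
  exact hC.base.of_injective G _ Θ hΘ
    (Pool.Agent.Y961.FJ.t_perm Pool.Agent.Y529.FJ.t_ext C hC X (G ⧸ N) hCQ)

end Pool.Agent.NH98.TG
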