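import Pool.Agent.NH98.TG.Stm

/-!
# Project TG: trees of Mathlib (helper51)
-/

set_option autoImplicit false

namespace Pool.Agent.NH98.TG

open Pool.Agent.Y110.FJ

/-- **TG-6**, the distance function of a tree -/
theorem t_graph : S_GRAPH := by
  intro V T hT
  refine ⟨fun x y => hT.connected.dist_eq_zero_iff, fun x y => SimpleGraph.dist_comm, ?_, ?_⟩
  · intro x y hxy
    obtain ⟨p, hp, hlen⟩ := hT.connected.exists_path_of_dist x y
    cases p with
    | nil => exact absurd rfl hxy
    | @cons _ z _ h p' =>
      rw [SimpleGraph.Walk.length_cons] at hlen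
      have h1 : T.dist z y ≤ p'.length := SimpleGraph.dist_le p'
      have h2 : T.dist x y ≤ T.dist x z + T.dist z y := hT.connected.dist_triangle
      have h3 : T.dist x z = 1 := SimpleGraph.dist_eq_one_iff_adj.2 h
      refine ⟨z, ⟨h3, by omega⟩, ?_⟩
      intro z' hz' hzy
      have ha : T.Adj x z' := SimpleGraph.dist_eq_one_iff_adj.1 hz'
      obtain ⟨q, hq, hql⟩ := hT.connected.exists_path_of_dist z' y
      have h4 : (SimpleGraph.Walk.cons ha q).IsPath := by
        apply SimpleGraph.Walk.isPath_of_length_eq_dist
        rw [SimpleGraph.Walk.length_cons, hql, hzy]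
      have h5 := (hT.existsUnique_path x y).unique h4 hp
      have h6 := congrArg (fun w : T.Walk x y => w.getVert 1) h5
      simpa using h6
  · intro x z y hxz
    have ha : T.Adj x z := SimpleGraph.dist_eq_one_iff_adj.1 hxz
    have h1 := hT.dist_eq_dist_add_one_of_adj y ha
    rw [SimpleGraph.dist_comm (u := y) (v := x), SimpleGraph.dist_comm (u := y) (v := z)] at h1
    rcases h1 with h1 | h1
    · left
      exact h1.symm
    · right
      exact h1

/-- **TG-6**, groups acting on trees -/
theorem t_trg (h : S_TR) : S_TRG := by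
  intro C hC V T hT G _ _ hadj hinv hdet
  haveI : Nonempty V := hT.connected.nonempty
  have hle : ∀ (g : G) (a b : V), T.dist (g • a) (g • b) ≤ T.dist a b := by
    intro g a b
    obtain ⟨p, hp⟩ := hT.connected.exists_walk_length_eq_dist a b
    have h1 := SimpleGraph.dist_le (p.map (⟨fun v => g • v, fun {a b} hab => hadj g a b hab⟩ : T →g T))
    rw [SimpleGraph.Walk.length_map, hp] at h1
    exact h1
  refine h C hC V T.dist (t_graph V T hT) G ?_ ?_ hdet
  · intro g a b
    refine le_antisymm (hle g a b) ?_
    have h1 := hle g⁻¹ (g • a) (g • b)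
    rwa [inv_smul_smul, inv_smul_smul] at h1
  · intro g a b hab
    exact hinv g a b (SimpleGraph.dist_eq_one_iff_adj.1 hab)

end Pool.Agent.NH98.TG
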