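import Pool.Agent.NH98.TG.Stm

/-!
# Project TG: `del` is a length function of tree type; stabilizers are bounded
-/

set_option autoImplicit false

namespace Pool.Agent.NH98.TG

open Pool.Agent.Y110.FJ

/-- `del` is a length function of tree type -/
theorem t_len (hdel : S_DEL) (hs : S_STEP) (hu : S_UNI) : S_LEN := by
  intro F _ v hv
  obtain ⟨h0, h1, -, hinv, -, hmul, hev⟩ := hdel F v hv
  refine ⟨?_, ?_, ?_, ?_, ?_, ?_⟩
  · show (del v (1 : GL (Fin 2) F)).toNat = 0
    rw [h1]
    rfl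
  · intro g
    show (del v g⁻¹).toNat = (del v g).toNat
    rw [hinv]
  · intro g h
    show (del v (g * h)).toNat ≤ (del v g).toNat + (del v h).toNat
    have a1 := hmul g h
    have a2 := h0 g
    have a3 := h0 h
    omega
  · intro g h
    show Even ((del v (g * h)).toNat + (del v g).toNat + (del v h).toNat)
    obtain ⟨k, hk⟩ := hev g h
    have a1 := h0 (g * h)
    have a2 := h0 g
    have a3 := h0 h
    exact ⟨k.toNat, by omega⟩
  · intro g hg
    have hg' : (del v g).toNat ≠ 0 := hg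
    obtain ⟨u, b1, b2⟩ := hs F v hv g (by omega)
    have a1 := h0 (u⁻¹ * g)
    refine ⟨u, ?_, ?_⟩
    · show (del v u).toNat = 1
      omega
    · show (del v (u⁻¹ * g)).toNat + 1 = (del v g).toNat
      omega
  · intro g u u' b1 b2 b3 b4
    have c1 : (del v u).toNat = 1 := b1
    have c2 : (del v u').toNat = 1 := b2
    have c3 : (del v (u⁻¹ * g)).toNat + 1 = (del v g).toNat := b3
    have c4 : (del v (u'⁻¹ * g)).toNat + 1 = (del v g).toNat := b4
    have a1 := h0 (u⁻¹ * g)
    have a2 := h0 (u'⁻¹ * g)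
    have a3 := h0 g
    have d := hu F v hv g u u' (by omega) (by omega) (by omega) (by omega)
    show (del v (u⁻¹ * u')).toNat = 0
    rw [d]
    rfl

/-- stabilizers are bounded -/
theorem t_bd (hge : S_GE) (hmm : S_MM) (hdel : S_DEL) : S_BD := by
  have _ := hge
  intro F _ v hv g
  obtain ⟨-, -, -, -, hmul, -, -⟩ := hdel F v hv
  refine ⟨(-(mm v g + mm v g⁻¹)).toNat, fun h hh hd => ?_⟩
  have e1 : (g⁻¹ * h * g).1.det = h.1.det := by
    have e2 : (g⁻¹ * h * g).1 = g⁻¹.1 * h.1 * g.1 := rfl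
    have e3 : g⁻¹.1.det * g.1.det = 1 := by
      rw [← Matrix.det_mul]
      have : g⁻¹.1 * g.1 = 1 := by
        rw [← Units.val_mul, inv_mul_cancel, Units.val_one]
      rw [this, Matrix.det_one]
    rw [e2, Matrix.det_mul, Matrix.det_mul]
    calc g⁻¹.1.det * h.1.det * g.1.det = (g⁻¹.1.det * g.1.det) * h.1.det := by ring
      _ = h.1.det := by rw [e3, one_mul]
  have e2 : mm v (g⁻¹ * h * g) = 0 := by
    unfold del at hd
    rw [e1, hh] at hd
    omega
  have e3 : h = g * (g⁻¹ * h * g) * g⁻¹ := by group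
  have e4 : mm v g + mm v (g⁻¹ * h * g) + mm v g⁻¹ ≤ mm v h := by
    have a1 := hmul g (g⁻¹ * h * g)
    have a2 := hmul (g * (g⁻¹ * h * g)) g⁻¹
    rw [← e3] at a2
    linarith
  refine (hmm F v hv h _).2 ?_
  rw [e2] at e4
  omega

end Pool.Agent.NH98.TG
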