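import Pool.Agent.NH98.TG.Stm

/-!
# Project TG, TG-7: the tree of a length function
-/

set_option autoImplicit false

namespace Pool.Agent.NH98.TG

namespace Lt

variable {Γ : Type} [Group Γ] {δ : Γ → ℕ}

/-- the elements of length zero -/
def ker (hδ : Len δ) : Subgroup Γ where
  carrier := {g | δ g = 0}
  mul_mem' := by
    intro a b ha hb
    have h1 := hδ.mul a b
    have ha' : δ a = 0 := ha
    have hb' : δ b = 0 := hb
    show δ (a * b) = 0
    omega
  one_mem' := hδ.one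
  inv_mem' := by
    intro a ha
    show δ a⁻¹ = 0
    rw [hδ.inv]
    exact ha

theorem mem_ker (hδ : Len δ) (g : Γ) : g ∈ ker hδ ↔ δ g = 0 := Iff.rfl

theorem mul_right (hδ : Len δ) (g : Γ) {k : Γ} (hk : δ k = 0) : δ (g * k) = δ g := by
  apply le_antisymm
  · have := hδ.mul g k
    omega
  · have := hδ.mul (g * k) k⁻¹
    rw [hδ.inv, hk, mul_inv_cancel_right] at this
    omega

theorem mul_left (hδ : Len δ) (g : Γ) {k : Γ} (hk : δ k = 0) : δ (k * g) = δ g := by
  apply le_antisymm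
  · have := hδ.mul k g
    omega
  · have := hδ.mul k⁻¹ (k * g)
    rw [hδ.inv, hk, inv_mul_cancel_left] at this
    omega

/-- the distance -/
noncomputable def dd (hδ : Len δ) (x y : Γ ⧸ ker hδ) : ℕ := δ (x.out⁻¹ * y.out)

theorem dd_mk (hδ : Len δ) (g h : Γ) : dd hδ (g : Γ ⧸ ker hδ) (h : Γ ⧸ ker hδ) = δ (g⁻¹ * h) := by
  obtain ⟨k, hk⟩ := QuotientGroup.mk_out_eq_mul (ker hδ) g
  obtain ⟨l, hl⟩ := QuotientGroup.mk_out_eq_mul (ker hδ) h
  unfold dd
  rw [hk, hl]
  have e : (g * (k : Γ))⁻¹ * (h * (l : Γ)) = ((k : Γ)⁻¹ * (g⁻¹ * h)) * (l : Γ) := by group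
  have hk0 : δ ((k : Γ)⁻¹) = 0 := by
    rw [hδ.inv]
    exact k.2
  rw [e, mul_right hδ _ l.2, mul_left hδ _ hk0]

theorem mk_eq (hδ : Len δ) (g h : Γ) : (g : Γ ⧸ ker hδ) = (h : Γ ⧸ ker hδ) ↔ δ (g⁻¹ * h) = 0 :=
  QuotientGroup.eq

end Lt

open Lt

theorem t_lt : S_LT := by
  intro Γ _ δ hδ
  refine ⟨ker hδ, mem_ker hδ, dd hδ, dd_mk hδ, ?_⟩
  constructor
  · intro x y
    induction x using QuotientGroup.induction_on with | H g => ?_
    induction y using QuotientGroup.induction_on with | H h => ?_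
    rw [dd_mk, mk_eq]
  · intro x y
    induction x using QuotientGroup.induction_on with | H g => ?_
    induction y using QuotientGroup.induction_on with | H h => ?_
    rw [dd_mk, dd_mk, ← hδ.inv (g⁻¹ * h), mul_inv_rev, inv_inv]
  · intro x y
    induction x using QuotientGroup.induction_on with | H g => ?_
    induction y using QuotientGroup.induction_on with | H h => ?_
    intro hne
    have h0 : δ (g⁻¹ * h) ≠ 0 := fun h0 => hne ((mk_eq hδ g h).2 h0)
    obtain ⟨u, hu1, hu2⟩ := hδ.step _ h0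
    refine ⟨((g * u : Γ) : Γ ⧸ ker hδ), ⟨?_, ?_⟩, ?_⟩
    · rw [dd_mk, inv_mul_cancel_left]
      exact hu1
    · rw [dd_mk, dd_mk]
      have e : (g * u)⁻¹ * h = u⁻¹ * (g⁻¹ * h) := by group
      rw [e]
      exact hu2
    · intro z'
      induction z' using QuotientGroup.induction_on with | H g' => ?_
      intro h1 h2
      rw [dd_mk] at h1
      rw [dd_mk, dd_mk] at h2
      have e : g'⁻¹ * h = (g⁻¹ * g')⁻¹ * (g⁻¹ * h) := by group
      rw [e] at h2
      have h3 := hδ.uni (g⁻¹ * h) (g⁻¹ * g') u h1 hu1 h2 hu2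
      rw [mk_eq]
      have e2 : g'⁻¹ * (g * u) = (g⁻¹ * g')⁻¹ * u := by group
      rw [e2]
      exact h3
  · intro x z y
    induction x using QuotientGroup.induction_on with | H g => ?_
    induction z using QuotientGroup.induction_on with | H g' => ?_
    induction y using QuotientGroup.induction_on with | H h => ?_
    intro h1
    rw [dd_mk] at h1
    rw [dd_mk, dd_mk]
    have e : g'⁻¹ * h = (g⁻¹ * g')⁻¹ * (g⁻¹ * h) := by group
    rw [e]
    have h2 := hδ.mul (g⁻¹ * g')⁻¹ (g⁻¹ * h)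
    have h3 := hδ.mul (g⁻¹ * g') ((g⁻¹ * g')⁻¹ * (g⁻¹ * h))
    rw [mul_inv_cancel_left] at h3
    have h4 := hδ.even (g⁻¹ * g')⁻¹ (g⁻¹ * h)
    rw [hδ.inv, h1] at h2 h4
    rw [h1] at h3
    obtain ⟨r, hr⟩ := h4
    omega

end Pool.Agent.NH98.TG
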