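import Pool.Agent.NH98.TG.Stm

/-!
# Project TG: rings with a place (helper51)
-/

set_option autoImplicit false

namespace Pool.Agent.NH98.TG

open Pool.Agent.Y110.FJ

namespace Main

open Matrix

lemma det_conj {F : Type} [Field F] (x y : GL (Fin 2) F) :
    (x⁻¹ * (y * x)).1.det = y.1.det := by
  have h1 : Matrix.GeneralLinearGroup.det (x⁻¹ * (y * x)) = Matrix.GeneralLinearGroup.det y := by
    rw [map_mul, map_mul, map_inv, mul_comm (Matrix.GeneralLinearGroup.det y),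
      inv_mul_cancel_left]
  exact congrArg Units.val h1

lemma det_map {A F : Type} [CommRing A] [Field F] (ι : A →+* F) (h : GL (Fin 2) A) :
    (Matrix.GeneralLinearGroup.map ι h).1.det = ι ((Matrix.GeneralLinearGroup.det h : Aˣ) : A) :=
  (RingHom.map_det ι h.1).symm

lemma v_pow {F : Type} [Field F] {v : F → ℤ} (hv : Disc v) (h1 : v 1 = 0) {x : F} (hx : x ≠ 0)
    (k : ℕ) : v (x ^ k) = k * v x := by
  induction k with
  | zero => rw [pow_zero, h1]; simp
  | succ k ih =>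
    rw [pow_succ, hv.1 _ _ (pow_ne_zero _ hx) hx, ih]
    push_cast
    ring

/-- the valuation of units is not positive -/
lemma v_unit_le {A F : Type} [CommRing A] [Field F] {ι : A →+* F} (hι : Function.Injective ι)
    {v : F → ℤ} (hv : Disc v) (h1 : v 1 = 0) {J : Ideal A} (hJ : ∀ a ∈ J, a ≠ 0 → v (ι a) < 0)
    {a : A} (ha : a ∈ J) (ha0 : a ≠ 0) (u : Aˣ) : v (ι u) ≤ 0 := by
  by_contra hc
  push Not at hc
  have hu0 : ι (u : A) ≠ 0 := by
    have h2 : IsUnit (ι (u : A)) := u.isUnit.map ι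
    exact h2.ne_zero
  have hιa : ι a ≠ 0 := fun h => ha0 (hι (by rw [h, map_zero]))
  set k : ℕ := (-(v (ι a))).toNat with hk
  have h2 : (u : A) ^ k * a ∈ J := J.mul_mem_left _ ha
  have h3 : ι ((u : A) ^ k * a) = ι u ^ k * ι a := by rw [map_mul, map_pow]
  have h4 : (u : A) ^ k * a ≠ 0 := by
    intro h
    have h5 : ι ((u : A) ^ k * a) = 0 := by rw [h, map_zero]
    rw [h3] at h5
    exact mul_ne_zero (pow_ne_zero _ hu0) hιa h5
  have h5 := hJ _ h2 h4
  rw [h3, hv.1 _ _ (pow_ne_zero _ hu0) hιa, v_pow hv h1 hu0] at h5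
  have h6 : -(v (ι a)) ≤ k := Int.self_le_toNat _
  nlinarith

lemma v_unit {A F : Type} [CommRing A] [Field F] {ι : A →+* F} (hι : Function.Injective ι)
    {v : F → ℤ} (hv : Disc v) (h1 : v 1 = 0) {J : Ideal A} (hJ : ∀ a ∈ J, a ≠ 0 → v (ι a) < 0)
    {a : A} (ha : a ∈ J) (ha0 : a ≠ 0) (u : Aˣ) : v (ι u) = 0 := by
  have h2 := v_unit_le hι hv h1 hJ ha ha0 u
  have h3 := v_unit_le hι hv h1 hJ ha ha0 u⁻¹
  have hu0 : ι (u : A) ≠ 0 := (u.isUnit.map ι).ne_zero
  have hu1 : ι ((u⁻¹ : Aˣ) : A) ≠ 0 := ((u⁻¹).isUnit.map ι).ne_zero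
  have h4 := hv.1 _ _ hu0 hu1
  rw [← map_mul, Units.mul_inv, map_one, h1] at h4
  omega

end Main

open Main in
/-- **TG-13** -/
theorem t_main (hge : S_GE) (hmm : S_MM) (hdel : S_DEL) (hlen : S_LEN) (hbd : S_BD) (hlt : S_LT)
    (htr : S_TR) : S_MAIN := by
  intro C hC A F _ _ ι hι v hv hJ
  obtain ⟨g1, g2, g3, g4, g5, g6, g7, g8⟩ := hge F v hv
  obtain ⟨d1, d2, d3, d4, d5, d6, d7⟩ := hdel F v hv
  by_cases hb : ∃ J : Ideal A, (∀ a ∈ J, a = 0) ∧ C (GL (Fin 2) (A ⧸ J))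
  · obtain ⟨J, hJ0, hCJ⟩ := hb
    refine hC.base.of_injective _ _ (Matrix.GeneralLinearGroup.map (Ideal.Quotient.mk J)) ?_ hCJ
    intro x y hxy
    apply Units.ext
    ext i j
    have h1 : Ideal.Quotient.mk J (x.1 i j) = Ideal.Quotient.mk J (y.1 i j) :=
      congrArg (fun g : GL (Fin 2) (A ⧸ J) => g.1 i j) hxy
    rw [Ideal.Quotient.eq] at h1
    exact sub_eq_zero.1 (hJ0 _ h1)
  push Not at hb
  -- the valuation of the determinants
  have hdet : ∀ h : GL (Fin 2) A, v ((Matrix.GeneralLinearGroup.map ι h).1.det) = 0 := by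
    intro h
    obtain ⟨J, hJ1, hJ2⟩ := hJ 0
    have hne : ∃ a ∈ J, a ≠ 0 := by
      by_contra hc
      push Not at hc
      exact hb J hc hJ2
    obtain ⟨a, ha, ha0⟩ := hne
    rw [det_map]
    exact v_unit hι hv g1 (fun a ha ha0 => by simpa using hJ1 a ha ha0) ha ha0 _
  obtain ⟨K, hK, d, hd, hT⟩ := hlt (GL (Fin 2) F) _ (hlen F v hv)
  letI : MulAction (GL (Fin 2) A) (GL (Fin 2) F ⧸ K) :=
    MulAction.compHom _ (Matrix.GeneralLinearGroup.map ι)
  have hsm : ∀ (h : GL (Fin 2) A) (x : GL (Fin 2) F), h • (x : GL (Fin 2) F ⧸ K) =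
      ((Matrix.GeneralLinearGroup.map ι h * x : GL (Fin 2) F) : GL (Fin 2) F ⧸ K) :=
    fun h x => rfl
  refine htr C hC (GL (Fin 2) F ⧸ K) d hT (GL (Fin 2) A) ?_ ?_ ?_
  · intro h a b
    induction a using QuotientGroup.induction_on with | _ x =>
    induction b using QuotientGroup.induction_on with | _ y =>
    rw [hsm, hsm, hd, hd]
    congr 2
    group
  · intro h a b hab hha
    exfalso
    subst hha
    induction a using QuotientGroup.induction_on with | _ x =>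
    rw [hsm, hd] at hab
    have h2 : del v (x⁻¹ * (Matrix.GeneralLinearGroup.map ι h * x)) =
        0 - 2 * mm v (x⁻¹ * (Matrix.GeneralLinearGroup.map ι h * x)) := by
      rw [← hdet h, ← det_conj x]
      rfl
    omega
  · intro E hE
    have hn : ∀ x : GL (Fin 2) F ⧸ K, ∃ n : ℕ, ∀ h : GL (Fin 2) F, v (h.1.det) = 0 →
        del v (x.out⁻¹ * h * x.out) = 0 → ∀ i j, ge v (-(n : ℤ)) (h i j) := fun x => hbd F v hv x.out
    choose n hn using hn
    obtain ⟨J, hJ1, hJ2⟩ := hJ (hE.toFinset.sup n)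
    refine ⟨GL (Fin 2) (A ⧸ J), inferInstance,
      Matrix.GeneralLinearGroup.map (Ideal.Quotient.mk J), hJ2, ?_⟩
    intro x hx h hhx hf
    have hx1 : ((x.out : GL (Fin 2) F) : GL (Fin 2) F ⧸ K) = x := QuotientGroup.out_eq' x
    have h1 : ((x.out : GL (Fin 2) F) : GL (Fin 2) F ⧸ K) =
        ((Matrix.GeneralLinearGroup.map ι h * x.out : GL (Fin 2) F) : GL (Fin 2) F ⧸ K) := by
      rw [← hsm, hx1, hhx]
    rw [QuotientGroup.eq, hK] at h1
    have h2 : del v (x.out⁻¹ * Matrix.GeneralLinearGroup.map ι h * x.out) = 0 := by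
      have h3 := d1 (x.out⁻¹ * Matrix.GeneralLinearGroup.map ι h * x.out)
      rw [← mul_assoc] at h1
      omega
    have h3 := hn x _ (hdet h) h2
    have hle : n x ≤ hE.toFinset.sup n := Finset.le_sup (hE.mem_toFinset.2 hx)
    have h4 : ∀ i j, ge v (-((hE.toFinset.sup n : ℕ) : ℤ)) (ι (h.1 i j)) := fun i j =>
      g6 _ _ _ (by have : (n x : ℤ) ≤ (hE.toFinset.sup n : ℕ) := by exact_mod_cast hle
                   linarith) (h3 i j)
    apply Units.ext
    ext i j
    have h5 : h.1 i j - (1 : Matrix (Fin 2) (Fin 2) A) i j ∈ J := by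
      rw [← Ideal.Quotient.eq]
      have h6 : Ideal.Quotient.mk J (h.1 i j) = (1 : Matrix (Fin 2) (Fin 2) (A ⧸ J)) i j :=
        congrArg (fun g : GL (Fin 2) (A ⧸ J) => g.1 i j) hf
      rw [h6, Matrix.one_apply, Matrix.one_apply]
      split_ifs
      · exact (map_one _).symm
      · exact (map_zero _).symm
    have h6 : ge v (-((hE.toFinset.sup n : ℕ) : ℤ))
        (ι (h.1 i j - (1 : Matrix (Fin 2) (Fin 2) A) i j)) := by
      rw [map_sub, sub_eq_add_neg]
      refine g3 _ _ _ (h4 i j) (g5 _ _ ?_)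
      rw [Matrix.one_apply]
      split_ifs
      · right
        rw [map_one, g1]
        simp
      · left
        exact map_zero _
    by_contra hne
    have h7 : h.1 i j - (1 : Matrix (Fin 2) (Fin 2) A) i j ≠ 0 := sub_ne_zero.2 hne
    have h8 := hJ1 _ h5 h7
    rcases h6 with h6 | h6
    · exact h7 (hι (by rw [h6, map_zero]))
    · omega

end Pool.Agent.NH98.TG
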