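import Pool.Agent.NH98.TG.Stm

/-!
# Project TG, TG-8: rules for valuations, the least valuation of the entries. Written by helper71.
-/

set_option autoImplicit false

namespace Pool.Agent.NH98.TG

theorem t_ge : S_GE := by
  intro F _ v hv
  obtain ⟨hmul, hadd, -⟩ := hv
  have h1 : v 1 = 0 := by
    have := hmul 1 1 one_ne_zero one_ne_zero
    rw [mul_one] at this
    omega
  have hm1 : v (-1) = 0 := by
    have h := hmul (-1) (-1) (neg_ne_zero.2 one_ne_zero) (neg_ne_zero.2 one_ne_zero)
    rw [neg_mul_neg, mul_one] at h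
    omega
  have hgm : ∀ k l x y, ge v k x → ge v l y → ge v (k + l) (x * y) := by
    intro k l x y hx hy
    by_cases hx0 : x = 0
    · left
      rw [hx0, zero_mul]
    by_cases hy0 : y = 0
    · left
      rw [hy0, mul_zero]
    right
    rw [hmul x y hx0 hy0]
    have h2 : k ≤ v x := hx.resolve_left hx0
    have h3 : l ≤ v y := hy.resolve_left hy0
    omega
  refine ⟨h1, hm1, ?_, hgm, ?_, ?_, ?_, ?_⟩
  · intro k x y hx hy
    by_cases hx0 : x = 0
    · rw [hx0, zero_add]
      exact hy
    by_cases hy0 : y = 0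
    · rw [hy0, add_zero]
      exact hx
    by_cases hxy : x + y = 0
    · exact Or.inl hxy
    right
    have h2 : k ≤ v x := hx.resolve_left hx0
    have h3 : k ≤ v y := hy.resolve_left hy0
    exact (le_min h2 h3).trans (hadd x y hx0 hy0 hxy)
  · intro k x hx
    have h2 := hgm 0 k (-1) x (Or.inr (by omega)) hx
    rw [zero_add, neg_one_mul] at h2
    exact h2
  · intro k l x hlk hx
    rcases hx with h | h
    · exact Or.inl h
    · exact Or.inr (hlk.trans h)
  · intro x hx
    have h2 := hmul x x⁻¹ hx (inv_ne_zero hx)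
    rw [mul_inv_cancel₀ hx] at h2
    omega
  · intro k x y hxy hx
    by_cases hy0 : y = 0
    · exact Or.inl hy0
    right
    have h2 := hxy.resolve_left (mul_ne_zero hx hy0)
    rw [hmul x y hx hy0] at h2
    omega

theorem t_mm : S_MM := by
  intro F _ v hv g k
  obtain ⟨-, -, -, -, -, hmono, -, -⟩ := t_ge F v hv
  have hex : ∃ i j, g i j ≠ 0 := by
    by_contra hcon
    push Not at hcon
    have h1 : g.1.det = 0 := by
      rw [Matrix.det_fin_two]
      rw [show g.1 0 0 = 0 from hcon 0 0, show g.1 0 1 = 0 from hcon 0 1]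
      simp
    have h2 : IsUnit g.1.det := (Matrix.isUnit_iff_isUnit_det _).1 g.isUnit
    rw [h1] at h2
    exact not_isUnit_zero h2
  obtain ⟨i₀, j₀, h0⟩ := hex
  set T : Set ℤ := {k : ℤ | ∀ i j, ge v k (g i j)} with hT
  have hbdd : BddAbove T := by
    refine ⟨v (g i₀ j₀), ?_⟩
    intro k hk
    exact (hk i₀ j₀).resolve_left h0
  have hne : T.Nonempty := by
    refine ⟨min (min (v (g 0 0)) (v (g 0 1))) (min (v (g 1 0)) (v (g 1 1))), ?_⟩
    intro i j
    right
    fin_cases i <;> fin_cases j <;> simp
  have hmem : sSup T ∈ T := Int.csSup_mem hne hbdd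
  constructor
  · intro hk
    exact le_csSup hbdd hk
  · intro hk i j
    exact hmono (sSup T) k (g i j) hk (hmem i j)

end Pool.Agent.NH98.TG
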