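import Pool.Agent.NH98.TG.Stm

/-!
# TG-15: polynomials in any number of variables
-/

set_option autoImplicit false

namespace Pool.Agent.NH98.TG

open Pool.Agent.Y110.FJ

namespace Mv45

theorem gl_inj {A B : Type} [CommRing A] [CommRing B] (f : A →+* B)
    (hf : Function.Injective f) :
    Function.Injective (Matrix.GeneralLinearGroup.map (n := Fin 2) f) := by
  intro g g' hg
  apply Units.ext
  have h1 : g.1.map f = g'.1.map f := congrArg Units.val hg
  exact Matrix.map_injective hf h1

theorem of_ring {C : ∀ (G : Type) [Group G], Prop} (hC : ClosedE C) {A B : Type} [CommRing A]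
    [CommRing B] (f : A →+* B) (hf : Function.Injective f) (h : C (GL (Fin 2) B)) :
    C (GL (Fin 2) A) :=
  hC.base.of_injective _ _ (Matrix.GeneralLinearGroup.map f) (gl_inj f hf) h

section

variable {C : ∀ (G : Type) [Group G], Prop} (h : S_POLY) (hC : ClosedE C)
  (hsol : ∀ (S : Type) [Group S], Group.IsSolvable S → C S) (R : Type) [CommRing R] [IsDomain R]
  (hR : C (GL (Fin 2) R))

include h hC hsol hR

theorem fin_case (n : ℕ) : C (GL (Fin 2) (MvPolynomial (Fin n) R)) := by
  induction n with
  | zero =>
    exact of_ring hC ((MvPolynomial.isEmptyAlgEquiv R (Fin 0)).toRingEquiv :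
      MvPolynomial (Fin 0) R →+* R) (RingEquiv.injective _) hR
  | succ n ih =>
    exact of_ring hC ((MvPolynomial.finSuccEquiv R n).toRingEquiv :
      MvPolynomial (Fin (n + 1)) R →+* Polynomial (MvPolynomial (Fin n) R))
      (RingEquiv.injective _) (h C hC hsol (MvPolynomial (Fin n) R) ih)

theorem finset_case {I : Type} (s : Finset I) : C (GL (Fin 2) (MvPolynomial s R)) :=
  of_ring hC ((MvPolynomial.renameEquiv R s.equivFin).toRingEquiv :
      MvPolynomial s R →+* MvPolynomial (Fin s.card) R) (RingEquiv.injective _)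
    (fin_case h hC hsol R hR s.card)

end

/-- the inclusion of the polynomials in finitely many variables -/
noncomputable def inc (I R : Type) [CommRing R] (s : Finset I) :
    MvPolynomial s R →+* MvPolynomial I R :=
  (MvPolynomial.rename (fun x : s => (x : I)) : MvPolynomial s R →ₐ[R] MvPolynomial I R).toRingHom

theorem inc_apply (I R : Type) [CommRing R] (s : Finset I) (p : MvPolynomial s R) :
    inc I R s p = MvPolynomial.rename (fun x : s => (x : I)) p := rfl

theorem inc_inj (I R : Type) [CommRing R] (s : Finset I) : Function.Injective (inc I R s) :=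
  MvPolynomial.rename_injective _ Subtype.val_injective

theorem exists_mem {I R : Type} [CommRing R] (g : GL (Fin 2) (MvPolynomial I R)) :
    ∃ s : Finset I, g ∈ (Matrix.GeneralLinearGroup.map (n := Fin 2) (inc I R s)).range := by
  classical
  let s : Finset I := (Finset.univ : Finset (Fin 2 × Fin 2)).biUnion fun x =>
    (g.1 x.1 x.2).vars ∪ (g.2 x.1 x.2).vars
  have h1 : ∀ i j, ∃ q : MvPolynomial s R, inc I R s q = g.1 i j := fun i j =>
    MvPolynomial.exists_rename_eq_of_vars_subset_range (g.1 i j) (fun x : s => (x : I))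
      Subtype.val_injective (by
        intro x hx
        refine ⟨⟨x, ?_⟩, rfl⟩
        exact Finset.mem_biUnion.2 ⟨(i, j), Finset.mem_univ _, Finset.mem_union_left _ hx⟩)
  have h2 : ∀ i j, ∃ q : MvPolynomial s R, inc I R s q = g.2 i j := fun i j =>
    MvPolynomial.exists_rename_eq_of_vars_subset_range (g.2 i j) (fun x : s => (x : I))
      Subtype.val_injective (by
        intro x hx
        refine ⟨⟨x, ?_⟩, rfl⟩
        exact Finset.mem_biUnion.2 ⟨(i, j), Finset.mem_univ _, Finset.mem_union_right _ hx⟩)
  choose M hM using h1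
  choose M' hM' using h2
  have e1 : (Matrix.of M).map (inc I R s) = g.1 := by
    apply Matrix.ext
    intro i j
    exact hM i j
  have e2 : (Matrix.of M').map (inc I R s) = g.2 := by
    apply Matrix.ext
    intro i j
    exact hM' i j
  have hinj : Function.Injective fun N : Matrix (Fin 2) (Fin 2) (MvPolynomial s R) =>
      N.map (inc I R s) := Matrix.map_injective (inc_inj I R s)
  have m1 : Matrix.of M * Matrix.of M' = 1 := by
    apply hinj
    show (Matrix.of M * Matrix.of M').map (inc I R s) = (1 : Matrix _ _ _).map (inc I R s)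
    rw [Matrix.map_mul, e1, e2, Matrix.map_one _ (map_zero _) (map_one _)]
    exact g.3
  have m2 : Matrix.of M' * Matrix.of M = 1 := by
    apply hinj
    show (Matrix.of M' * Matrix.of M).map (inc I R s) = (1 : Matrix _ _ _).map (inc I R s)
    rw [Matrix.map_mul, e1, e2, Matrix.map_one _ (map_zero _) (map_one _)]
    exact g.4
  refine ⟨s, ⟨⟨Matrix.of M, Matrix.of M', m1, m2⟩, ?_⟩⟩
  apply Units.ext
  exact e1

theorem mono {I R : Type} [CommRing R] {s t : Finset I} (hst : s ≤ t) :
    (Matrix.GeneralLinearGroup.map (n := Fin 2) (inc I R s)).range ≤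
      (Matrix.GeneralLinearGroup.map (n := Fin 2) (inc I R t)).range := by
  rintro _ ⟨x, rfl⟩
  refine ⟨Matrix.GeneralLinearGroup.map (n := Fin 2)
    (MvPolynomial.rename (fun y : s => (⟨y.1, hst y.2⟩ : t)) :
      MvPolynomial s R →ₐ[R] MvPolynomial t R).toRingHom x, ?_⟩
  apply Units.ext
  apply Matrix.ext
  intro i j
  show inc I R t (MvPolynomial.rename (fun y : s => (⟨y.1, hst y.2⟩ : t)) (x.1 i j)) =
    inc I R s (x.1 i j)
  rw [inc_apply, inc_apply, MvPolynomial.rename_rename]
  rfl

end Mv45

open Mv45

theorem t_mv (h : S_POLY) : S_MV := by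
  intro C hC hsol I R _ _ hR
  refine Pool.Agent.Y430.SS.of_directed hC.base (GL (Fin 2) (MvPolynomial I R)) (Finset I)
    (fun i j => ?_) (fun s => (Matrix.GeneralLinearGroup.map (n := Fin 2) (inc I R s)).range)
    (fun s t hst => mono hst) exists_mem fun s => ?_
  · classical
    exact ⟨i ∪ j, Finset.subset_union_left, Finset.subset_union_right⟩
  · exact hC.base.of_injective _ _
      (MonoidHom.ofInjective (gl_inj (inc I R s) (inc_inj I R s))).symm.toMonoidHom
      (MulEquiv.injective _) (finset_case h hC hsol R hR s)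

end Pool.Agent.NH98.TG
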