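import Pool.Agent.NH98.TG.Stm

/-! TG-14: polynomials in one variable. -/

set_option autoImplicit false

namespace Pool.Agent.NH98.TG

open Pool.Agent.Y110.FJ

namespace TPol

theorem gl_inj {R S : Type} [CommRing R] [CommRing S] (f : R →+* S) (hf : Function.Injective f) :
    Function.Injective (Matrix.GeneralLinearGroup.map (n := Fin 2) f) := by
  intro x y h
  ext i j
  apply hf
  exact congrArg (fun z : GL (Fin 2) S => z i j) h

/-- the valuation at infinity -/
noncomputable def vv (L : Type) [Field L] (x : RatFunc L) : ℤ := - RatFunc.intDegree x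

theorem disc (L : Type) [Field L] : Disc (vv L) := by
  refine ⟨fun x y hx hy => ?_, fun x y hx hy hxy => ?_, ⟨(RatFunc.X)⁻¹, ?_, ?_⟩⟩
  · unfold vv
    rw [RatFunc.intDegree_mul hx hy]
    ring
  · unfold vv
    have h1 := RatFunc.intDegree_add_le hy hxy
    rcases le_max_iff.1 h1 with h | h
    · exact (min_le_left _ _).trans (by linarith)
    · exact (min_le_right _ _).trans (by linarith)
  · exact inv_ne_zero RatFunc.X_ne_zero
  · unfold vv
    rw [RatFunc.intDegree_inv, RatFunc.intDegree_X]
    ring

variable (R : Type) [CommRing R] [IsDomain R]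

/-- the embedding in the field of the rational functions -/
noncomputable def io : Polynomial R →+* RatFunc (FractionRing R) :=
  (algebraMap (Polynomial (FractionRing R)) (RatFunc (FractionRing R))).comp
    (Polynomial.mapRingHom (algebraMap R (FractionRing R)))

theorem io_inj : Function.Injective (io R) := by
  unfold io
  rw [RingHom.coe_comp]
  exact (RatFunc.algebraMap_injective _).comp
    (Polynomial.map_injective _ (IsFractionRing.injective R (FractionRing R)))

theorem vv_io (a : Polynomial R) : vv (FractionRing R) (io R a) = -(a.natDegree : ℤ) := by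
  unfold vv io
  rw [RingHom.comp_apply, RatFunc.intDegree_polynomial, Polynomial.coe_mapRingHom,
    Polynomial.natDegree_map_eq_of_injective (IsFractionRing.injective R (FractionRing R))]

/-- the value at zero -/
noncomputable def ev0 : Polynomial R ⧸ Ideal.span {(Polynomial.X : Polynomial R)} →+* R :=
  Ideal.Quotient.lift _ (Polynomial.constantCoeff) (by
    intro a ha
    rw [Ideal.mem_span_singleton, Polynomial.X_dvd_iff] at ha
    exact ha)

omit [IsDomain R] in
theorem ev0_inj : Function.Injective (ev0 R) := by
  rw [injective_iff_map_eq_zero]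
  intro z hz
  obtain ⟨p, rfl⟩ := Ideal.Quotient.mk_surjective z
  have hz' : Polynomial.constantCoeff p = 0 := hz
  rw [Ideal.Quotient.eq_zero_iff_mem, Ideal.mem_span_singleton, Polynomial.X_dvd_iff]
  exact hz'

end TPol

open TPol in
theorem t_poly (hpow : S_POW) (hmain : S_MAIN) : S_POLY := by
  intro C hC hsol R _ _ hR
  refine hmain C hC (Polynomial R) (RatFunc (FractionRing R)) (io R) (io_inj R)
    (vv (FractionRing R)) (disc (FractionRing R)) fun n =>
      ⟨Ideal.span {Polynomial.X} ^ (n + 1), fun a ha ha0 => ?_, ?_⟩
  · rw [vv_io]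
    rw [Ideal.span_singleton_pow, Ideal.mem_span_singleton] at ha
    have h1 := Polynomial.natDegree_le_of_dvd ha ha0
    rw [Polynomial.natDegree_X_pow] at h1
    have h2 : ((n : ℤ) + 1) ≤ a.natDegree := by exact_mod_cast h1
    linarith
  · exact hpow C hC hsol (Polynomial R) _ (hC.base.of_injective _ _
      (Matrix.GeneralLinearGroup.map (ev0 R)) (gl_inj _ (ev0_inj R)) hR) n

end Pool.Agent.NH98.TG
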