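import Pool.Agent.NH98.TG.Stm

/-!
# TG-3: geodesics give reduced words
-/

set_option autoImplicit false

namespace Pool.Agent.NH98.TG

namespace RED

variable {V : Type} {d : V → V → ℕ}

lemma self (h : TreeMetric d) (x : V) : d x x = 0 := (h.eq_iff x x).2 rfl

lemma tri (h : TreeMetric d) (n : ℕ) : ∀ x y z, d x y = n → d x z ≤ d x y + d y z := by
  induction n with
  | zero =>
    intro x y z hn
    have := (h.eq_iff x y).1 hn
    subst this
    omega
  | succ n ih =>
    intro x y z hn
    have hne : x ≠ y := by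
      intro he
      rw [(h.eq_iff x y).2 he] at hn
      omega
    obtain ⟨x', ⟨h1, h2⟩, -⟩ := h.step x y hne
    have h3 := ih x' y z (by omega)
    have h4 := h.adj x x' z h1
    omega

lemma tri' (h : TreeMetric d) (x y z : V) : d x z ≤ d x y + d y z := tri h _ x y z rfl

lemma seg_sub (h : TreeMetric d) {a z b : V} (h1 : d a z = 1) (h2 : d z b + 1 = d a b) :
    seg d z b ⊆ seg d a b := by
  intro p hp
  have h3 : d z p + d p b = d z b := hp
  have h4 := tri' h a z p
  have h5 := tri' h a p b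
  show d a p + d p b = d a b
  omega

lemma mem_left (h : TreeMetric d) (a b : V) : a ∈ seg d a b := by
  show d a a + d a b = d a b
  rw [self h, zero_add]

lemma mem_right (h : TreeMetric d) (a b : V) : b ∈ seg d a b := by
  show d a b + d b b = d a b
  rw [self h, add_zero]

lemma mk_ne_one {X : Type} {x : X × Bool} {L : List (X × Bool)} (h : FreeGroup.IsReduced (x :: L)) :
    FreeGroup.mk (x :: L) ≠ 1 := by
  intro h1
  rw [FreeGroup.one_eq_mk] at h1
  obtain ⟨M, h2, h3⟩ := FreeGroup.Red.exact.1 h1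
  have h4 := h.red_iff_eq.1 h2
  have h5 := FreeGroup.Red.nil_iff.1 h3
  rw [h5] at h4
  exact absurd h4 (List.cons_ne_nil _ _).symm

lemma edge {X : Type} (x y : X) :
    FreeGroup.of x * (FreeGroup.of y)⁻¹ = FreeGroup.mk [(x, true), (y, false)] := by
  unfold FreeGroup.of
  rw [FreeGroup.inv_mk, FreeGroup.mul_mk]
  rfl

/-- the reduced word of a geodesic -/
theorem word (h : TreeMetric d) {X : Type} (e : V → V → X) (S : Set V)
    (h1 : ∀ a ∈ S, ∀ b ∈ S, d a b = 1 → e a b ≠ e b a)
    (h2 : ∀ a ∈ S, ∀ b ∈ S, ∀ c ∈ S, d a b = 1 → d a c = 1 → b ≠ c → e a b ≠ e a c)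
    (w : V → V → FreeGroup X)
    (hw : ∀ a b, d a b = 1 → w a b = FreeGroup.of (e a b) * (FreeGroup.of (e b a))⁻¹)
    (hc : ∀ a b c, w a b * w b c = w a c) (n : ℕ) :
    ∀ a b, d a b = n → a ≠ b → seg d a b ⊆ S → ∃ (z : V) (L : List (X × Bool)), d a z = 1 ∧
      d z b + 1 = d a b ∧ FreeGroup.IsReduced ((e a z, true) :: (e z a, false) :: L) ∧
      w a b = FreeGroup.mk ((e a z, true) :: (e z a, false) :: L) := by
  induction n with
  | zero =>
    intro a b hn hne _
    exact absurd ((h.eq_iff a b).1 hn) hne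
  | succ n ih =>
    intro a b hn hne hS
    obtain ⟨z, ⟨hz1, hz2⟩, -⟩ := h.step a b hne
    have hsub := seg_sub h hz1 hz2
    have haS : a ∈ S := hS (mem_left h a b)
    have hzS : z ∈ S := hS (hsub (mem_left h z b))
    have hza : d z a = 1 := by rw [h.symm, hz1]
    have ez : e a z ≠ e z a := h1 a haS z hzS hz1
    by_cases hzb : z = b
    · subst hzb
      refine ⟨z, [], hz1, hz2, ?_, ?_⟩
      · rw [FreeGroup.isReduced_cons_cons]
        exact ⟨fun he => absurd he ez, FreeGroup.IsReduced.singleton⟩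
      · rw [hw a z hz1, edge]
    · obtain ⟨z', L, hz1', hz2', hred, hword⟩ := ih z b (by omega) hzb (hsub.trans hS)
      have hz'S : z' ∈ S := hS (hsub (seg_sub h hz1' hz2' (mem_left h z' b)))
      have hne' : a ≠ z' := by
        intro he
        rw [← he] at hz2'
        omega
      refine ⟨z, (e z z', true) :: (e z' z, false) :: L, hz1, hz2, ?_, ?_⟩
      · rw [FreeGroup.isReduced_cons_cons, FreeGroup.isReduced_cons_cons]
        exact ⟨fun he => absurd he ez,
          fun he => absurd he (h2 z hzS a haS z' hz'S hza hz1' hne'), hred⟩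
      · rw [← hc a z b, hw a z hz1, edge, hword, FreeGroup.mul_mk]
        rfl

end RED

/-- **TG-3** -/
theorem t_red : S_RED := by
  intro V d h X e S h1 h2 w hw hc a b hne hS
  obtain ⟨z, L, -, -, hred, hword⟩ := RED.word h e S h1 h2 w hw hc _ a b rfl hne hS
  rw [hword]
  exact RED.mk_ne_one hred

end Pool.Agent.NH98.TG
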