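import Pool.Agent.NH98.TG.Stm

/-!
# Project TG (MP_63c928_gt), file `Seg`: triangle inequality and segments in tree metrics.
-/

set_option autoImplicit false

namespace Pool.Agent.NH98.TG

namespace Seg

theorem tri {V : Type} {d : V → V → ℕ} (hd : TreeMetric d) (y z : V) :
    ∀ (n : ℕ) (x : V), d x y = n → d x z ≤ d x y + d y z := by
  intro n
  induction n with
  | zero =>
    intro x hx
    have : x = y := (hd.eq_iff x y).1 hx
    subst this
    omega
  | succ n ih =>
    intro x hx
    have hne : x ≠ y := by
      intro h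
      have := (hd.eq_iff x y).2 h
      omega
    obtain ⟨p, ⟨hp1, hp2⟩, -⟩ := hd.step x y hne
    have h1 := ih p (by omega)
    rcases hd.adj x p z hp1 with h | h <;> omega

theorem tri' {V : Type} {d : V → V → ℕ} (hd : TreeMetric d) (x y z : V) :
    d x z ≤ d x y + d y z := tri hd y z (d x y) x rfl

theorem self {V : Type} {d : V → V → ℕ} (hd : TreeMetric d) (x : V) : d x x = 0 :=
  (hd.eq_iff x x).2 rfl

theorem fin {V : Type} {d : V → V → ℕ} (hd : TreeMetric d) (b : V) :
    ∀ (n : ℕ) (a : V), d a b = n → (seg d a b).Finite := by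
  intro n
  induction n with
  | zero =>
    intro a ha
    apply (Set.finite_singleton a).subset
    intro z hz
    have hz' : d a z + d z b = d a b := hz
    have h0 : d a z = 0 := by omega
    have := (hd.eq_iff a z).1 h0
    simp [this]
  | succ n ih =>
    intro a ha
    have hne : a ≠ b := by
      intro h
      have := (hd.eq_iff a b).2 h
      omega
    obtain ⟨p, ⟨hp1, hp2⟩, hpu⟩ := hd.step a b hne
    apply ((ih p (by omega)).insert a).subset
    intro z hz
    have hz' : d a z + d z b = d a b := hz
    by_cases hza : z = a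
    · simp [hza]
    · right
      obtain ⟨q, ⟨hq1, hq2⟩, -⟩ := hd.step a z (fun h => hza h.symm)
      have h1 := tri' hd q z b
      have hqp : q = p := by
        apply hpu q hq1
        rcases hd.adj a q b hq1 with h | h <;> omega
      subst hqp
      change d q z + d z b = d q b
      omega

theorem claim {V : Type} {d : V → V → ℕ} (hd : TreeMetric d) (a c : V) :
    ∀ (n : ℕ) (z : V), d z c = n →
      (∀ p, d z p = 1 → d p a + 1 = d z a → d p c + 1 = d z c → False) →
      d a c = d a z + d z c := by
  intro n
  induction n with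
  | zero =>
    intro z hz _
    have : z = c := (hd.eq_iff z c).1 hz
    subst this
    omega
  | succ n ih =>
    intro z hz hno
    have hne : z ≠ c := by
      intro h
      have := (hd.eq_iff z c).2 h
      omega
    obtain ⟨p, ⟨hp1, hp2⟩, -⟩ := hd.step z c hne
    have hpa : d p a = d z a + 1 := by
      rcases hd.adj z p a hp1 with h | h
      · exact (hno p hp1 h hp2).elim
      · exact h
    have hpane : p ≠ a := by
      intro h
      have := (hd.eq_iff p a).2 h
      omega
    have hpz : d p z = 1 := by rw [hd.symm]; exact hp1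
    have h1 := ih p (by omega) (by
      intro q hq1 hq2 hq3
      obtain ⟨r, -, hru⟩ := hd.step p a hpane
      have e1 := hru q hq1 hq2
      have e2 := hru z hpz (by omega)
      have e3 : q = z := e1.trans e2.symm
      subst e3
      omega)
    have s1 := hd.symm a p
    have s2 := hd.symm a z
    omega

theorem union {V : Type} {d : V → V → ℕ} (hd : TreeMetric d) (a b c : V) :
    seg d a c ⊆ seg d a b ∪ seg d b c := by
  intro z hz
  have hz' : d a z + d z c = d a c := hz
  by_contra hcon
  rw [Set.mem_union, not_or] at hcon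
  obtain ⟨h1, h2⟩ := hcon
  have h1' : ¬ d a z + d z b = d a b := h1
  have h2' : ¬ d b z + d z c = d b c := h2
  have hzb : z ≠ b := by
    intro h
    subst h
    apply h1'
    rw [self hd]
    omega
  have c1 : ∃ p, d z p = 1 ∧ d p a + 1 = d z a ∧ d p b + 1 = d z b := by
    by_contra hc
    apply h1'
    exact (claim hd a b _ z rfl (fun p q1 q2 q3 => hc ⟨p, q1, q2, q3⟩)).symm
  have c2 : ∃ p, d z p = 1 ∧ d p b + 1 = d z b ∧ d p c + 1 = d z c := by
    by_contra hc
    apply h2'
    exact (claim hd b c _ z rfl (fun p q1 q2 q3 => hc ⟨p, q1, q2, q3⟩)).symm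
  obtain ⟨p, p1, p2, p3⟩ := c1
  obtain ⟨q, q1, q2, q3⟩ := c2
  obtain ⟨r, -, hru⟩ := hd.step z b hzb
  have e1 := hru p p1 p3
  have e2 := hru q q1 q2
  have e3 : p = q := e1.trans e2.symm
  subst e3
  have t := tri' hd a p c
  have s1 := hd.symm a p
  have s2 := hd.symm a z
  omega

end Seg

/-- the triangle inequality -/
theorem t_tri : S_TRI := fun _ _ hd x y z => Seg.tri' hd x y z

/-- segments -/
theorem t_seg : S_SEG := fun _ _ hd => ⟨fun a b => Seg.fin hd b _ a rfl, Seg.union hd⟩

end Pool.Agent.NH98.TG
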