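import Pool.Agent.NH98.TG.Stm
import Pool.Agent.Y529.FJ.Ext

/-!
# TG-12: solvable kernels, square-zero extensions, powers of ideals (helper49)
-/

set_option autoImplicit false

namespace Pool.Agent.NH98.TG

open Pool.Agent.Y110.FJ

theorem t_sol : S_SOL := by
  intro C hC hsol G Q _ _ f hf hQ
  refine Pool.Agent.Y529.FJ.t_ext C hC G f.ker (hsol _ hf) ?_ ?_
  · exact hC.base.of_injective _ _ (QuotientGroup.kerLift f) (QuotientGroup.kerLift_injective f) hQ
  · intro g _
    exact hsol _ (Pool.Agent.R942.FJ.solv_sup f.ker hf g)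

theorem sol_entry {B B' : Type} [CommRing B] [CommRing B'] (φ : B →+* B') {g : GL (Fin 2) B}
    (hg : g ∈ (Matrix.GeneralLinearGroup.map (n := Fin 2) φ).ker) (i j : Fin 2) :
    φ ((g.1 - 1) i j) = 0 := by
  rw [MonoidHom.mem_ker] at hg
  have h1 : φ (g i j) = (1 : GL (Fin 2) B') i j := by
    rw [← Matrix.GeneralLinearGroup.map_apply, hg]
  have h2 : (1 : GL (Fin 2) B') i j = (1 : Matrix (Fin 2) (Fin 2) B') i j := rfl
  have h3 : φ ((1 : Matrix (Fin 2) (Fin 2) B) i j) = (1 : Matrix (Fin 2) (Fin 2) B') i j := by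
    rw [Matrix.one_apply, Matrix.one_apply]
    split_ifs
    · exact map_one φ
    · exact map_zero φ
  rw [Matrix.sub_apply, map_sub, h3]
  exact sub_eq_zero.2 (h1.trans h2)

theorem sol_mul {B B' : Type} [CommRing B] [CommRing B'] (φ : B →+* B')
    (hφ : ∀ x y, φ x = 0 → φ y = 0 → x * y = 0) {g k : GL (Fin 2) B}
    (hg : g ∈ (Matrix.GeneralLinearGroup.map (n := Fin 2) φ).ker)
    (hk : k ∈ (Matrix.GeneralLinearGroup.map (n := Fin 2) φ).ker) :
    (g.1 - 1) * (k.1 - 1) = 0 := by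
  ext i j
  rw [Matrix.mul_apply, Matrix.zero_apply]
  exact Finset.sum_eq_zero fun l _ => hφ _ _ (sol_entry φ hg i l) (sol_entry φ hk l j)

theorem t_sq (h : S_SOL) : S_SQ := by
  intro C hC hsol B B' _ _ φ hφ hB'
  refine h C hC hsol (GL (Fin 2) B) (GL (Fin 2) B') (Matrix.GeneralLinearGroup.map φ) ?_ hB'
  apply Group.isSolvable_of_comm
  rintro ⟨g, hg⟩ ⟨k, hk⟩
  apply Subtype.ext
  apply Units.ext
  change g.1 * k.1 = k.1 * g.1
  have h1 := sol_mul φ hφ hg hk
  have h2 := sol_mul φ hφ hk hg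
  have h3 : g.1 * k.1 = (g.1 - 1) * (k.1 - 1) + g.1 + k.1 - 1 := by noncomm_ring
  have h4 : k.1 * g.1 = (k.1 - 1) * (g.1 - 1) + g.1 + k.1 - 1 := by noncomm_ring
  rw [h3, h4, h1, h2]

theorem gl_inj {A B : Type} [CommRing A] [CommRing B] {f : A →+* B} (hf : Function.Injective f) :
    Function.Injective (Matrix.GeneralLinearGroup.map (n := Fin 2) f) := by
  intro g k h
  apply Units.ext
  ext i j
  apply hf
  have h1 : f (g i j) = f (k i j) := by
    rw [← Matrix.GeneralLinearGroup.map_apply, ← Matrix.GeneralLinearGroup.map_apply, h]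
  exact h1

theorem t_pow (h : S_SQ) : S_POW := by
  intro C hC hsol A _ I hI k
  induction k with
  | zero =>
    have e : I ^ (0 + 1) = I := by rw [zero_add, pow_one]
    exact hC.base.of_injective _ _ (Matrix.GeneralLinearGroup.map
      ((Ideal.quotEquivOfEq e : _ ≃+* _) : A ⧸ I ^ (0 + 1) →+* A ⧸ I))
      (gl_inj (Ideal.quotEquivOfEq e).injective) hI
  | succ k ih =>
    refine h C hC hsol _ _ (Ideal.Quotient.factor
      (Ideal.pow_le_pow_right (I := I) (Nat.le_succ (k + 1)))) ?_ ih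
    intro x y hx hy
    obtain ⟨a, rfl⟩ := Ideal.Quotient.mk_surjective x
    obtain ⟨b, rfl⟩ := Ideal.Quotient.mk_surjective y
    rw [Ideal.Quotient.factor_mk, Ideal.Quotient.eq_zero_iff_mem] at hx hy
    rw [← map_mul, Ideal.Quotient.eq_zero_iff_mem]
    have h1 := Ideal.mul_mem_mul hx hy
    rw [← pow_add] at h1
    exact Ideal.pow_le_pow_right (by omega) h1

end Pool.Agent.NH98.TG
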