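import Pool.Agent.NH98.TG.Stm

/-!
# TG-10: the next vertex
-/

set_option autoImplicit false

namespace Pool.Agent.NH98.TG

namespace Step

open Matrix

variable {F : Type} [Field F]

theorem ent (a b : GL (Fin 2) F) (i l : Fin 2) :
    (a * b) i l = a i 0 * b 0 l + a i 1 * b 1 l := by
  rw [Matrix.GeneralLinearGroup.coe_mul, Matrix.mul_apply, Fin.sum_univ_two]

theorem dt (g : GL (Fin 2) F) : g.1.det = g 0 0 * g 1 1 - g 0 1 * g 1 0 :=
  Matrix.det_fin_two g.1

theorem dne (g : GL (Fin 2) F) : g.1.det ≠ 0 := by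
  have := (Matrix.GeneralLinearGroup.det g).ne_zero
  exact this

theorem dmul (a b : GL (Fin 2) F) : (a * b).1.det = a.1.det * b.1.det := by
  rw [Units.val_mul, Matrix.det_mul]

theorem vmul {v : F → ℤ} (hv : Disc v) (a b : GL (Fin 2) F) :
    v ((a * b).1.det) = v (a.1.det) + v (b.1.det) := by
  rw [dmul]
  exact hv.1 _ _ (dne a) (dne b)

/-- normal form -/
theorem nf (hge : S_GE) (hmm : S_MM) (hdel : S_DEL) {v : F → ℤ} (hv : Disc v)
    (g : GL (Fin 2) F) (hg : 0 < del v g) :
    ∃ k : GL (Fin 2) F, 0 ≤ mm v k ∧ v (k.1.det) = 0 ∧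
      ∀ l, ge v (mm v g + 1) ((k * g) 1 l) := by
  obtain ⟨h1, hm1, hadd, hmul, hneg, hmono, hinv, hcan⟩ := hge F v hv
  obtain ⟨m, hm⟩ : ∃ m, m = mm v g := ⟨_, rfl⟩
  have hge0 : ∀ i j, ge v m (g i j) := (hmm F v hv g m).2 (le_of_eq hm)
  have hn : 0 < v (g.1.det) - 2 * m := by
    have := hg
    unfold del at this
    rw [← hm] at this
    exact this
  have ge00 : ge v 0 (0 : F) := Or.inl rfl
  have ge01 : ge v 0 (1 : F) := Or.inr (le_of_eq h1.symm)
  rw [← hm]
  by_cases hA : ∀ l, ge v (m + 1) (g 1 l)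
  · refine ⟨1, ?_, ?_, ?_⟩
    · rw [← hmm F v hv 1 0]
      intro i j
      fin_cases i <;> fin_cases j
      · exact ge01
      · exact ge00
      · exact ge00
      · exact ge01
    · have : (1 : GL (Fin 2) F).1.det = 1 := by
        rw [Units.val_one, Matrix.det_one]
      rw [this, h1]
    · intro l
      rw [one_mul]
      exact hA l
  by_cases hB : ∀ l, ge v (m + 1) (g 0 l)
  · have hd : Matrix.det !![(0 : F), 1; 1, 0] ≠ 0 := by
      rw [Matrix.det_fin_two_of]
      simp
    refine ⟨Matrix.GeneralLinearGroup.mkOfDetNeZero !![(0 : F), 1; 1, 0] hd, ?_, ?_, ?_⟩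
    · rw [← hmm F v hv _ 0]
      intro i j
      fin_cases i <;> fin_cases j
      · exact ge00
      · exact ge01
      · exact ge01
      · exact ge00
    · have : (Matrix.GeneralLinearGroup.mkOfDetNeZero !![(0 : F), 1; 1, 0] hd).1.det = -1 := by
        show Matrix.det !![(0 : F), 1; 1, 0] = -1
        rw [Matrix.det_fin_two_of]
        ring
      rw [this, hm1]
    · intro l
      rw [ent]
      show ge v (m + 1) ((1 : F) * g 0 l + 0 * g 1 l)
      rw [one_mul, zero_mul, add_zero]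
      exact hB l
  push Not at hB
  obtain ⟨j, hj⟩ := hB
  have hne : g 0 j ≠ 0 := fun h => hj (Or.inl h)
  have hvj : v (g 0 j) = m := by
    have h2 : m ≤ v (g 0 j) := (hge0 0 j).resolve_left hne
    by_contra h3
    exact hj (Or.inr (by omega))
  obtain ⟨c, hc⟩ : ∃ c, c = g 1 j / g 0 j := ⟨_, rfl⟩
  have hcj : g 0 j * c = g 1 j := by
    rw [hc]
    field_simp
  have hc0 : ge v 0 c := by
    have h2 : ge v m (g 0 j * c) := by
      rw [hcj]
      exact hge0 1 j
    have h3 := hcan m _ _ h2 hne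
    rw [hvj, sub_self] at h3
    exact h3
  have hd : Matrix.det !![(1 : F), 0; -c, 1] ≠ 0 := by
    rw [Matrix.det_fin_two_of]
    simp
  -- the second row
  have hrow : ∀ l, g 0 j * (-c * g 0 l + 1 * g 1 l) = 0 ∨
      g 0 j * (-c * g 0 l + 1 * g 1 l) = g.1.det ∨
      g 0 j * (-c * g 0 l + 1 * g 1 l) = -g.1.det := by
    intro l
    have e : g 0 j * (-c * g 0 l + 1 * g 1 l) = g 0 j * g 1 l - g 1 j * g 0 l := by
      rw [← hcj]
      ring
    rw [e, dt]
    fin_cases j <;> fin_cases l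
    · left
      show g 0 0 * g 1 0 - g 1 0 * g 0 0 = 0
      ring
    · right; left
      show g 0 0 * g 1 1 - g 1 0 * g 0 1 = _
      ring
    · right; right
      show g 0 1 * g 1 0 - g 1 1 * g 0 0 = _
      ring
    · left
      show g 0 1 * g 1 1 - g 1 1 * g 0 1 = 0
      ring
  refine ⟨Matrix.GeneralLinearGroup.mkOfDetNeZero !![(1 : F), 0; -c, 1] hd, ?_, ?_, ?_⟩
  · rw [← hmm F v hv _ 0]
    intro i j
    fin_cases i <;> fin_cases j
    · exact ge01
    · exact ge00
    · exact hneg _ _ hc0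
    · exact ge01
  · have : (Matrix.GeneralLinearGroup.mkOfDetNeZero !![(1 : F), 0; -c, 1] hd).1.det = 1 := by
      show Matrix.det !![(1 : F), 0; -c, 1] = 1
      rw [Matrix.det_fin_two_of]
      ring
    rw [this, h1]
  · intro l
    rw [ent]
    show ge v (m + 1) (-c * g 0 l + 1 * g 1 l)
    have h5 : ge v (2 * m + 1) (g 0 j * (-c * g 0 l + 1 * g 1 l)) := by
      rcases hrow l with h | h | h
      · rw [h]
        exact Or.inl rfl
      · rw [h]
        exact Or.inr (by omega)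
      · rw [h]
        exact hneg _ _ (Or.inr (by omega))
    have h6 := hcan _ _ _ h5 hne
    rw [hvj] at h6
    have h7 : 2 * m + 1 - m = m + 1 := by ring
    rw [h7] at h6
    exact h6

end Step

open Matrix in
theorem t_step (hge : S_GE) (hmm : S_MM) (hdel : S_DEL) : S_STEP := by
  intro F _ v hv g hg
  obtain ⟨h1, hm1, hadd, hmul, hneg, hmono, hinv, hcan⟩ := hge F v hv
  obtain ⟨d0, d1, dinv, ddinv, dmul, dsub, deven⟩ := hdel F v hv
  obtain ⟨k, hk0, hkd, hk⟩ := Step.nf hge hmm hdel hv g hg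
  obtain ⟨p, hp0, hp⟩ := hv.2.2
  have hd : Matrix.det !![(1 : F), 0; 0, p] ≠ 0 := by
    rw [Matrix.det_fin_two_of]
    simpa using hp0
  obtain ⟨D, hD⟩ : ∃ D : GL (Fin 2) F,
      D = Matrix.GeneralLinearGroup.mkOfDetNeZero !![(1 : F), 0; 0, p] hd := ⟨_, rfl⟩
  have D00 : D 0 0 = 1 := by rw [hD]; rfl
  have D01 : D 0 1 = 0 := by rw [hD]; rfl
  have D10 : D 1 0 = 0 := by rw [hD]; rfl
  have D11 : D 1 1 = p := by rw [hD]; rfl
  have Dd : v (D.1.det) = 1 := by
    rw [Step.dt, D00, D01, D10, D11]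
    simpa using hp
  have D0 : 0 ≤ mm v D := by
    rw [← hmm F v hv _ 0]
    intro i j
    fin_cases i <;> fin_cases j
    · show ge v 0 (D 0 0)
      rw [D00]
      exact Or.inr (le_of_eq h1.symm)
    · show ge v 0 (D 0 1)
      rw [D01]
      exact Or.inl rfl
    · show ge v 0 (D 1 0)
      rw [D10]
      exact Or.inl rfl
    · show ge v 0 (D 1 1)
      rw [D11]
      exact Or.inr (by omega)
  obtain ⟨m, hm⟩ : ∃ m, m = mm v g := ⟨_, rfl⟩
  -- `w = D⁻¹ k g`
  obtain ⟨w, hw⟩ : ∃ w : GL (Fin 2) F, w = D⁻¹ * (k * g) := ⟨_, rfl⟩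
  have hDw : D * w = k * g := by
    rw [hw, mul_inv_cancel_left]
  have hkg : m ≤ mm v (k * g) := by
    have := dmul k g
    omega
  have hwm : m ≤ mm v w := by
    rw [← hmm F v hv]
    have e0 : ∀ l, w 0 l = (k * g) 0 l := by
      intro l
      have := Step.ent D w 0 l
      rw [D00, D01, hDw] at this
      rw [this]
      ring
    have e1 : ∀ l, p * w 1 l = (k * g) 1 l := by
      intro l
      have := Step.ent D w 1 l
      rw [D10, D11, hDw] at this
      rw [this]
      ring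
    intro i l
    fin_cases i
    · show ge v m (w 0 l)
      rw [e0]
      exact (hmm F v hv (k * g) m).2 hkg 0 l
    · show ge v m (w 1 l)
      have h2 : ge v (m + 1) (p * w 1 l) := by
        rw [e1, hm]
        exact hk l
      have h3 := hcan _ _ _ h2 hp0
      rw [hp] at h3
      have h4 : m + 1 - 1 = m := by ring
      rw [h4] at h3
      exact h3
  obtain ⟨u, hu⟩ : ∃ u : GL (Fin 2) F, u = k⁻¹ * D := ⟨_, rfl⟩
  have huw : u⁻¹ * g = w := by
    rw [hu, hw]
    group
  have hu0 : 0 ≤ mm v u := by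
    have h2 := dmul k⁻¹ D
    have h3 := dinv k
    rw [← hu] at h2
    omega
  have hug : mm v u + mm v w ≤ m := by
    have h2 := dmul u w
    have h3 : u * w = g := by
      rw [← huw, mul_inv_cancel_left]
    rw [h3, ← hm] at h2
    exact h2
  have hud : v (u.1.det) = 1 := by
    have h2 := Step.vmul hv k u
    have h3 : k * u = D := by
      rw [hu, mul_inv_cancel_left]
    rw [h3] at h2
    omega
  have hwd : v (w.1.det) = v (g.1.det) - 1 := by
    have h2 := Step.vmul hv u w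
    have h3 : u * w = g := by
      rw [← huw, mul_inv_cancel_left]
    rw [h3] at h2
    omega
  have hdu := d0 u
  refine ⟨u, ?_, ?_⟩
  · unfold del at hdu ⊢
    omega
  · rw [huw]
    unfold del
    omega

open Matrix in
theorem t_uni (hge : S_GE) (hmm : S_MM) (hdel : S_DEL) : S_UNI := by
  intro F _ v hv g u u' hu hu' hug hug'
  obtain ⟨h1, hm1, hadd, hmul, hneg, hmono, hinv, hcan⟩ := hge F v hv
  obtain ⟨d0, d1, dinv, ddinv, dmul, dsub, deven⟩ := hdel F v hv
  obtain ⟨k, hk0, hkd, hk⟩ := Step.nf hge hmm hdel hv u (by omega)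
  obtain ⟨m, hm⟩ : ∃ m, m = mm v g := ⟨_, rfl⟩
  obtain ⟨a, ha⟩ : ∃ a, a = mm v u := ⟨_, rfl⟩
  obtain ⟨b, hb⟩ : ∃ b, b = mm v u' := ⟨_, rfl⟩
  obtain ⟨w, hw⟩ : ∃ w, w = u⁻¹ * g := ⟨_, rfl⟩
  obtain ⟨w', hw'⟩ : ∃ w', w' = u'⁻¹ * g := ⟨_, rfl⟩
  have eg : u * w = g := by rw [hw, mul_inv_cancel_left]
  have eg' : u' * w' = g := by rw [hw', mul_inv_cancel_left]
  have dw : v (u.1.det) + v (w.1.det) = v (g.1.det) := by rw [← Step.vmul hv, eg]
  have dw' : v (u'.1.det) + v (w'.1.det) = v (g.1.det) := by rw [← Step.vmul hv, eg']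
  rw [← hw] at hug
  rw [← hw'] at hug'
  have mw : mm v w = m - a := by
    unfold del at hug hu
    omega
  have mw' : mm v w' = m - b := by
    unfold del at hug' hu'
    omega
  -- multiplication by `k`
  have mk : ∀ x : GL (Fin 2) F, mm v (k * x) = mm v x := by
    intro x
    have h2 := dmul k x
    have h3 := dmul k⁻¹ (k * x)
    rw [inv_mul_cancel_left] at h3
    have h4 := dinv k
    omega
  obtain ⟨U, hU⟩ : ∃ U, U = k * u := ⟨_, rfl⟩
  obtain ⟨U', hU'⟩ : ∃ U', U' = k * u' := ⟨_, rfl⟩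
  obtain ⟨G, hG⟩ : ∃ G, G = k * g := ⟨_, rfl⟩
  have mU : mm v U = a := by rw [hU, mk, ha]
  have mU' : mm v U' = b := by rw [hU', mk, hb]
  have mG : mm v G = m := by rw [hG, mk, hm]
  have vU : v (U.1.det) = 1 + 2 * a := by
    rw [hU, Step.vmul hv, hkd]
    unfold del at hu
    omega
  have vU' : v (U'.1.det) = 1 + 2 * b := by
    rw [hU', Step.vmul hv, hkd]
    unfold del at hu'
    omega
  have eG : G = U * w := by rw [hG, hU, mul_assoc, eg]
  have eG' : G = U' * w' := by rw [hG, hU', mul_assoc, eg']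
  have gU : ∀ i j, ge v a (U i j) := (hmm F v hv U a).2 (le_of_eq mU.symm)
  have gU1 : ∀ l, ge v (a + 1) (U 1 l) := by
    intro l
    rw [hU, ha]
    exact hk l
  have gU' : ∀ i j, ge v b (U' i j) := (hmm F v hv U' b).2 (le_of_eq mU'.symm)
  have gw : ∀ i j, ge v (m - a) (w i j) := (hmm F v hv w _).2 (le_of_eq mw.symm)
  have gw' : ∀ i j, ge v (m - b) (w' i j) := (hmm F v hv w' _).2 (le_of_eq mw'.symm)
  have cast : ∀ {k l : ℤ} {x : F}, ge v k x → k = l → ge v l x := fun h e => e ▸ h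
  have gG1 : ∀ l, ge v (m + 1) (G 1 l) := by
    intro l
    rw [eG, Step.ent]
    apply hadd
    · exact cast (hmul _ _ _ _ (gU1 0) (gw 0 l)) (by ring)
    · exact cast (hmul _ _ _ _ (gU1 1) (gw 1 l)) (by ring)
  have dU' : U' 0 0 * U' 1 1 - U' 0 1 * U' 1 0 = U'.1.det := (Step.dt U').symm
  have gd' : ge v (1 + 2 * b) (U'.1.det) := Or.inr (le_of_eq vU'.symm)
  -- the second row of `U'`
  have gU'1 : ∀ l, ge v (b + 1) (U' 1 l) := by
    by_contra hcon
    push Not at hcon
    obtain ⟨j, hj⟩ := hcon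
    have hne : U' 1 j ≠ 0 := fun h => hj (Or.inl h)
    have hvj : v (U' 1 j) = b := by
      have h2 : b ≤ v (U' 1 j) := (gU' 1 j).resolve_left hne
      by_contra h3
      exact hj (Or.inr (by omega))
    have hG0 : ∀ l, ge v (m + 1) (G 0 l) := by
      intro l
      have h5 : ge v (b + m + 1) (U' 1 j * G 0 l) := by
        have e0 : G 0 l = U' 0 0 * w' 0 l + U' 0 1 * w' 1 l := by rw [eG', Step.ent]
        have e1 : G 1 l = U' 1 0 * w' 0 l + U' 1 1 * w' 1 l := by rw [eG', Step.ent]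
        have g1 := gG1 l
        fin_cases j
        · have e : U' 1 0 * G 0 l = U' 0 0 * G 1 l + -(U'.1.det * w' 1 l) := by
            rw [← dU', e0, e1]
            ring
          show ge v (b + m + 1) (U' 1 0 * G 0 l)
          rw [e]
          apply hadd
          · exact cast (hmul _ _ _ _ (gU' 0 0) g1) (by ring)
          · exact cast (hneg _ _ (hmul _ _ _ _ gd' (gw' 1 l))) (by ring)
        · have e : U' 1 1 * G 0 l = U' 0 1 * G 1 l + U'.1.det * w' 0 l := by
            rw [← dU', e0, e1]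
            ring
          show ge v (b + m + 1) (U' 1 1 * G 0 l)
          rw [e]
          apply hadd
          · exact cast (hmul _ _ _ _ (gU' 0 1) g1) (by ring)
          · exact cast (hmul _ _ _ _ gd' (gw' 0 l)) (by ring)
      have h6 := hcan _ _ _ h5 hne
      rw [hvj] at h6
      exact cast h6 (by ring)
    have h7 : m + 1 ≤ mm v G := by
      rw [← hmm F v hv]
      intro i l
      fin_cases i
      · exact hG0 l
      · exact gG1 l
    omega
  -- the quotient
  obtain ⟨h, hh⟩ : ∃ h, h = u⁻¹ * u' := ⟨_, rfl⟩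
  have eU' : U' = U * h := by
    rw [hU', hU, hh, mul_assoc, mul_inv_cancel_left]
  have hdU := Step.dne U
  have dU : U 0 0 * U 1 1 - U 0 1 * U 1 0 = U.1.det := (Step.dt U).symm
  have gh : b - a ≤ mm v h := by
    rw [← hmm F v hv]
    intro i l
    have e0 : U' 0 l = U 0 0 * h 0 l + U 0 1 * h 1 l := by rw [eU', Step.ent]
    have e1 : U' 1 l = U 1 0 * h 0 l + U 1 1 * h 1 l := by rw [eU', Step.ent]
    have h5 : ge v (a + b + 1) (U.1.det * h i l) := by
      fin_cases i
      · have e : U.1.det * h 0 l = U 1 1 * U' 0 l + -(U 0 1 * U' 1 l) := by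
          rw [← dU, e0, e1]
          ring
        show ge v (a + b + 1) (U.1.det * h 0 l)
        rw [e]
        apply hadd
        · exact cast (hmul _ _ _ _ (gU1 1) (gU' 0 l)) (by ring)
        · exact cast (hneg _ _ (hmul _ _ _ _ (gU 0 1) (gU'1 l))) (by ring)
      · have e : U.1.det * h 1 l = U 0 0 * U' 1 l + -(U 1 0 * U' 0 l) := by
          rw [← dU, e0, e1]
          ring
        show ge v (a + b + 1) (U.1.det * h 1 l)
        rw [e]
        apply hadd
        · exact cast (hmul _ _ _ _ (gU 0 0) (gU'1 l)) (by ring)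
        · exact cast (hneg _ _ (hmul _ _ _ _ (gU1 0) (gU' 0 l))) (by ring)
    have h6 := hcan _ _ _ h5 hdU
    rw [vU] at h6
    exact cast h6 (by ring)
  have vh : v (u.1.det) + v (h.1.det) = v (u'.1.det) := by
    rw [← Step.vmul hv, hh, mul_inv_cancel_left]
  rw [← hh]
  have h8 := d0 h
  unfold del at hu hu' h8 ⊢
  omega

end Pool.Agent.NH98.TG
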