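import Pool.Agent.R630.FJ.Inn
import Pool.Agent.R942.FJ.Det
import Pool.Agent.Y430.SS.Lf

/-!
# Project TG (MP_63c928_gt): groups acting on trees with locally detected stabilizers, `GL₂` of
polynomial rings. Definitions and statements (owner helper98).
-/

set_option autoImplicit false

namespace Pool.Agent.NH98.TG

open Pool.Agent.Y110.FJ

/-! ### trees, given by their distance function -/

/-- `d` is the distance function of the vertices of a tree -/
structure TreeMetric {V : Type} (d : V → V → ℕ) : Prop where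
  eq_iff : ∀ x y, d x y = 0 ↔ x = y
  symm : ∀ x y, d x y = d y x
  step : ∀ x y, x ≠ y → ∃ z, (d x z = 1 ∧ d z y + 1 = d x y) ∧
    ∀ z', d x z' = 1 → d z' y + 1 = d x y → z' = z
  adj : ∀ x z y, d x z = 1 → d z y + 1 = d x y ∨ d z y = d x y + 1

/-- the vertices between `a` and `b` -/
def seg {V : Type} (d : V → V → ℕ) (a b : V) : Set V := {z | d a z + d z b = d a b}

/-- the triangle inequality -/
def S_TRI : Prop := ∀ (V : Type) (d : V → V → ℕ), TreeMetric d → ∀ x y z, d x z ≤ d x y + d y z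

/-- segments -/
def S_SEG : Prop := ∀ (V : Type) (d : V → V → ℕ), TreeMetric d →
  (∀ a b, (seg d a b).Finite) ∧ ∀ a b c, seg d a c ⊆ seg d a b ∪ seg d b c

/-- functions on the edges define cocycles -/
def S_COC : Prop := ∀ (V : Type) (d : V → V → ℕ), TreeMetric d → ∀ (H : Type) [Group H] (y : V → V → H),
  (∀ a b, d a b = 1 → y b a = (y a b)⁻¹) →
  ∃ w : V → V → H, (∀ a b, d a b = 1 → w a b = y a b) ∧ ∀ a b c, w a b * w b c = w a c

/-- equivariance has to be checked on edges only -/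
def S_EQV : Prop := ∀ (V : Type) (d : V → V → ℕ), TreeMetric d → ∀ (H : Type) [Group H] (w : V → V → H),
  (∀ a b c, w a b * w b c = w a c) → ∀ (σ : H →* H) (τ : V → V), (∀ a b, d (τ a) (τ b) = d a b) →
  (∀ a b, d a b = 1 → σ (w a b) = w (τ a) (τ b)) → ∀ a b, σ (w a b) = w (τ a) (τ b)

/-- geodesics give reduced words -/
def S_RED : Prop := ∀ (V : Type) (d : V → V → ℕ), TreeMetric d → ∀ (X : Type) (e : V → V → X) (S : Set V),
  (∀ a ∈ S, ∀ b ∈ S, d a b = 1 → e a b ≠ e b a) →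
  (∀ a ∈ S, ∀ b ∈ S, ∀ c ∈ S, d a b = 1 → d a c = 1 → b ≠ c → e a b ≠ e a c) →
  ∀ w : V → V → FreeGroup X,
    (∀ a b, d a b = 1 → w a b = FreeGroup.of (e a b) * (FreeGroup.of (e b a))⁻¹) →
    (∀ a b c, w a b * w b c = w a c) → ∀ a b, a ≠ b → seg d a b ⊆ S → w a b ≠ 1

/-- the embedding in `F(X) ⋊ P`, `P` acting by permutations of `X` -/
def S_EMB : Prop := ∀ C : ∀ (G : Type) [Group G], Prop, ClosedE C →
  ∀ (V : Type) (d : V → V → ℕ), TreeMetric d → ∀ (G P : Type) [Group G] [Group P] [MulAction G V]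
    (f : G →* P), C P → (∀ (g : G) a b, d (g • a) (g • b) = d a b) →
    (∀ (g : G) a b, d a b = 1 → g • a = b → g • b ≠ a) →
    ∀ (v₀ : V) (S : Set V), v₀ ∈ S → (∀ g : G, seg d v₀ (g • v₀) ⊆ S) →
    (∀ v ∈ S, ∀ g : G, g • v = v → f g = 1 → g = 1) → C G

/-- groups acting on trees with locally detected stabilizers -/
def S_TR : Prop := ∀ C : ∀ (G : Type) [Group G], Prop, ClosedE C →
  ∀ (V : Type) [Nonempty V] (d : V → V → ℕ), TreeMetric d → ∀ (G : Type) [Group G] [MulAction G V],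
    (∀ (g : G) a b, d (g • a) (g • b) = d a b) →
    (∀ (g : G) a b, d a b = 1 → g • a = b → g • b ≠ a) →
    (∀ E : Set V, E.Finite → ∃ (P : Type) (_ : Group P) (f : G →* P), C P ∧
      ∀ v ∈ E, ∀ g : G, g • v = v → f g = 1 → g = 1) → C G

/-- trees in the sense of Mathlib -/
def S_GRAPH : Prop := ∀ (V : Type) (T : SimpleGraph V), T.IsTree → TreeMetric T.dist

/-- groups acting on trees, with the trees of Mathlib -/
def S_TRG : Prop := ∀ C : ∀ (G : Type) [Group G], Prop, ClosedE C →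
  ∀ (V : Type) (T : SimpleGraph V), T.IsTree → ∀ (G : Type) [Group G] [MulAction G V],
    (∀ (g : G) a b, T.Adj a b → T.Adj (g • a) (g • b)) →
    (∀ (g : G) a b, T.Adj a b → g • a = b → g • b ≠ a) →
    (∀ E : Set V, E.Finite → ∃ (P : Type) (_ : Group P) (f : G →* P), C P ∧
      ∀ v ∈ E, ∀ g : G, g • v = v → f g = 1 → g = 1) → C G

/-! ### trees from length functions on groups -/

/-- a length function of tree type on a group -/
structure Len {Γ : Type} [Group Γ] (δ : Γ → ℕ) : Prop where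
  one : δ 1 = 0
  inv : ∀ g, δ g⁻¹ = δ g
  mul : ∀ g h, δ (g * h) ≤ δ g + δ h
  even : ∀ g h, Even (δ (g * h) + δ g + δ h)
  step : ∀ g, δ g ≠ 0 → ∃ u, δ u = 1 ∧ δ (u⁻¹ * g) + 1 = δ g
  uni : ∀ g u u', δ u = 1 → δ u' = 1 → δ (u⁻¹ * g) + 1 = δ g → δ (u'⁻¹ * g) + 1 = δ g →
    δ (u⁻¹ * u') = 0

/-- the tree of a length function -/
def S_LT : Prop := ∀ (Γ : Type) [Group Γ] (δ : Γ → ℕ), Len δ → ∃ K : Subgroup Γ, (∀ g, g ∈ K ↔ δ g = 0) ∧
  ∃ d : Γ ⧸ K → Γ ⧸ K → ℕ, (∀ g h : Γ, d (g : Γ ⧸ K) (h : Γ ⧸ K) = δ (g⁻¹ * h)) ∧ TreeMetric d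

/-! ### discrete valuations and `GL₂` -/

/-- `v` is a normalized discrete valuation of the field `F` (the value at `0` is irrelevant) -/
def Disc {F : Type} [Field F] (v : F → ℤ) : Prop :=
  (∀ x y : F, x ≠ 0 → y ≠ 0 → v (x * y) = v x + v y) ∧
  (∀ x y : F, x ≠ 0 → y ≠ 0 → x + y ≠ 0 → min (v x) (v y) ≤ v (x + y)) ∧
  ∃ x : F, x ≠ 0 ∧ v x = 1

/-- `x` has valuation at least `k` -/
def ge {F : Type} [Field F] (v : F → ℤ) (k : ℤ) (x : F) : Prop := x = 0 ∨ k ≤ v x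

/-- the least valuation of the entries -/
noncomputable def mm {F : Type} [Field F] (v : F → ℤ) (g : GL (Fin 2) F) : ℤ :=
  sSup {k : ℤ | ∀ i j, ge v k (g i j)}

/-- the distance of the vertices `K` and `gK` of the Bruhat-Tits tree -/
noncomputable def del {F : Type} [Field F] (v : F → ℤ) (g : GL (Fin 2) F) : ℤ :=
  v (g.1.det) - 2 * mm v g

/-- rules for `ge` -/
def S_GE : Prop := ∀ (F : Type) [Field F] (v : F → ℤ), Disc v →
  (v 1 = 0) ∧ (v (-1) = 0) ∧ (∀ k x y, ge v k x → ge v k y → ge v k (x + y)) ∧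
  (∀ k l x y, ge v k x → ge v l y → ge v (k + l) (x * y)) ∧ (∀ k x, ge v k x → ge v k (-x)) ∧
  (∀ k l x, l ≤ k → ge v k x → ge v l x) ∧ (∀ x, x ≠ 0 → v x⁻¹ = - v x) ∧
  ∀ k x y, ge v k (x * y) → x ≠ 0 → ge v (k - v x) y

/-- `mm` is the least valuation of the entries -/
def S_MM : Prop := ∀ (F : Type) [Field F] (v : F → ℤ), Disc v → ∀ (g : GL (Fin 2) F) (k : ℤ),
  (∀ i j, ge v k (g i j)) ↔ k ≤ mm v g

/-- simple properties of `mm` and `del` -/
def S_DEL : Prop := ∀ (F : Type) [Field F] (v : F → ℤ), Disc v →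
  (∀ g : GL (Fin 2) F, 0 ≤ del v g) ∧ del v (1 : GL (Fin 2) F) = 0 ∧
  (∀ g : GL (Fin 2) F, mm v g⁻¹ = mm v g - v (g.1.det)) ∧
  (∀ g : GL (Fin 2) F, del v g⁻¹ = del v g) ∧
  (∀ g h : GL (Fin 2) F, mm v g + mm v h ≤ mm v (g * h)) ∧
  (∀ g h : GL (Fin 2) F, del v (g * h) ≤ del v g + del v h) ∧
  ∀ g h : GL (Fin 2) F, Even (del v (g * h) + del v g + del v h)

/-- the next vertex: existence -/
def S_STEP : Prop := ∀ (F : Type) [Field F] (v : F → ℤ), Disc v → ∀ g : GL (Fin 2) F, 0 < del v g →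
  ∃ u : GL (Fin 2) F, del v u = 1 ∧ del v (u⁻¹ * g) + 1 = del v g

/-- the next vertex: uniqueness -/
def S_UNI : Prop := ∀ (F : Type) [Field F] (v : F → ℤ), Disc v → ∀ g u u' : GL (Fin 2) F,
  del v u = 1 → del v u' = 1 → del v (u⁻¹ * g) + 1 = del v g → del v (u'⁻¹ * g) + 1 = del v g →
  del v (u⁻¹ * u') = 0

/-- `del` is a length function of tree type -/
def S_LEN : Prop := ∀ (F : Type) [Field F] (v : F → ℤ), Disc v →
  Len (fun g : GL (Fin 2) F => (del v g).toNat)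

/-- stabilizers are bounded -/
def S_BD : Prop := ∀ (F : Type) [Field F] (v : F → ℤ), Disc v → ∀ g : GL (Fin 2) F, ∃ n : ℕ,
  ∀ h : GL (Fin 2) F, v (h.1.det) = 0 → del v (g⁻¹ * h * g) = 0 → ∀ i j, ge v (-(n : ℤ)) (h i j)

/-! ### rings -/

/-- solvable kernels -/
def S_SOL : Prop := ∀ C : ∀ (G : Type) [Group G], Prop, ClosedE C →
  (∀ (S : Type) [Group S], Group.IsSolvable S → C S) →
  ∀ (G Q : Type) [Group G] [Group Q] (f : G →* Q), Group.IsSolvable f.ker → C Q → C G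

/-- kernels of square zero -/
def S_SQ : Prop := ∀ C : ∀ (G : Type) [Group G], Prop, ClosedE C →
  (∀ (S : Type) [Group S], Group.IsSolvable S → C S) →
  ∀ (B B' : Type) [CommRing B] [CommRing B'] (φ : B →+* B'), (∀ x y, φ x = 0 → φ y = 0 → x * y = 0) →
    C (GL (Fin 2) B') → C (GL (Fin 2) B)

/-- powers of an ideal -/
def S_POW : Prop := ∀ C : ∀ (G : Type) [Group G], Prop, ClosedE C →
  (∀ (S : Type) [Group S], Group.IsSolvable S → C S) →
  ∀ (A : Type) [CommRing A] (I : Ideal A), C (GL (Fin 2) (A ⧸ I)) → ∀ k : ℕ, C (GL (Fin 2) (A ⧸ I ^ (k + 1)))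

/-- rings with a place at which bounded sets are detected by quotients -/
def S_MAIN : Prop := ∀ C : ∀ (G : Type) [Group G], Prop, ClosedE C →
  ∀ (A F : Type) [CommRing A] [Field F] (ι : A →+* F), Function.Injective ι → ∀ v : F → ℤ, Disc v →
    (∀ n : ℕ, ∃ J : Ideal A, (∀ a ∈ J, a ≠ 0 → v (ι a) < -(n : ℤ)) ∧ C (GL (Fin 2) (A ⧸ J))) →
    C (GL (Fin 2) A)

/-- polynomials in one variable -/
def S_POLY : Prop := ∀ C : ∀ (G : Type) [Group G], Prop, ClosedE C →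
  (∀ (S : Type) [Group S], Group.IsSolvable S → C S) →
  ∀ (R : Type) [CommRing R] [IsDomain R], C (GL (Fin 2) R) → C (GL (Fin 2) (Polynomial R))

/-- polynomials in any number of variables -/
def S_MV : Prop := ∀ C : ∀ (G : Type) [Group G], Prop, ClosedE C →
  (∀ (S : Type) [Group S], Group.IsSolvable S → C S) →
  ∀ (I R : Type) [CommRing R] [IsDomain R], C (GL (Fin 2) R) → C (GL (Fin 2) (MvPolynomial I R))

/-- affine curves with one place at infinity -/
def S_CURVE : Prop := ∀ C : ∀ (G : Type) [Group G], Prop, ClosedE C →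
  (∀ (S : Type) [Group S], Group.IsSolvable S → C S) →
  ∀ (K A F : Type) [Field K] [CommRing A] [IsDomain A] [IsNoetherianRing A] [Algebra K A] [Field F]
    (ι : A →+* F), Function.Injective ι → ∀ v : F → ℤ, Disc v →
    (∀ n : ℕ, ∃ W : Submodule K A, Module.Finite K W ∧ ∀ a : A, ge v (-(n : ℤ)) (ι a) → a ∈ W) →
    ∀ I : Ideal A, I ≠ ⊤ → C (GL (Fin 2) (A ⧸ I)) → C (GL (Fin 2) A)

end Pool.Agent.NH98.TG
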