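import Pool.Agent.NH98.TG.Stm

/-!
# TG-5: groups acting on trees with locally detected stabilizers (helper72)
-/

set_option autoImplicit false

namespace Pool.Agent.NH98.TG

open Pool.Agent.Y110.FJ

namespace tr72

variable {V G : Type} [Group G] [MulAction G V] {d : V → V → ℕ}

theorem seg_smul (hiso : ∀ (g : G) a b, d (g • a) (g • b) = d a b) {g : G} {a b z : V}
    (hz : z ∈ seg d (g • a) (g • b)) : g⁻¹ • z ∈ seg d a b := by
  have h1 : d a (g⁻¹ • z) = d (g • a) z := by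
    rw [← hiso g a (g⁻¹ • z), smul_inv_smul]
  have h2 : d (g⁻¹ • z) b = d z (g • b) := by
    rw [← hiso g (g⁻¹ • z) b, smul_inv_smul]
  have h3 : d (g • a) z + d z (g • b) = d (g • a) (g • b) := hz
  change d a (g⁻¹ • z) + d (g⁻¹ • z) b = d a b
  rw [h1, h2, h3, hiso]

theorem seg_symm (hd : TreeMetric d) {a b z : V} (hz : z ∈ seg d a b) : z ∈ seg d b a := by
  have h1 : d a z + d z b = d a b := hz
  change d b z + d z a = d b a
  rw [hd.symm b z, hd.symm z a, hd.symm b a, ← h1, add_comm]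

end tr72

open tr72 in
theorem t_tr (hseg : S_SEG) (hemb : S_EMB) : S_TR := by
  intro C hC V hV d hd G _ _ hiso hinv hfam
  classical
  obtain ⟨v₀⟩ := hV
  obtain ⟨hfin, hsub⟩ := hseg V d hd
  refine Pool.Agent.Y430.SS.of_directed hC.base G (Finset G)
    (fun i j => ⟨i ∪ j, Finset.subset_union_left, Finset.subset_union_right⟩)
    (fun s => Subgroup.closure (s : Set G))
    (fun s t h => Subgroup.closure_mono (by exact_mod_cast h))
    (fun g => ⟨{g}, Subgroup.subset_closure (by simp)⟩) (fun s => ?_)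
  obtain ⟨F0, hF0⟩ : ∃ F0 : Set V, F0 = insert v₀ (⋃ h ∈ (s : Set G), seg d v₀ (h • v₀)) :=
    ⟨_, rfl⟩
  have hF0fin : F0.Finite := by
    rw [hF0]
    exact (s.finite_toSet.biUnion fun h _ => hfin _ _).insert v₀
  have hv₀ : v₀ ∈ F0 := by
    rw [hF0]
    exact Set.mem_insert _ _
  obtain ⟨P, iP, f, hCP, hfree⟩ := hfam F0 hF0fin
  obtain ⟨H, hH⟩ : ∃ H : Subgroup G, H = Subgroup.closure (s : Set G) := ⟨_, rfl⟩
  rw [← hH]
  obtain ⟨S, hS⟩ : ∃ S : Set V, ∀ v, v ∈ S ↔ ∃ h ∈ H, ∃ p ∈ F0, v = h • p :=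
    ⟨{v | ∃ h ∈ H, ∃ p ∈ F0, v = h • p}, fun v => Iff.rfl⟩
  have hSinv : ∀ g ∈ H, ∀ z, g⁻¹ • z ∈ S → z ∈ S := by
    intro g hg z hz
    obtain ⟨h, hh, p, hp, hzp⟩ := (hS _).1 hz
    refine (hS _).2 ⟨g * h, H.mul_mem hg hh, p, hp, ?_⟩
    rw [mul_smul, ← hzp, smul_inv_smul]
  have hsegS : ∀ g ∈ H, seg d v₀ (g • v₀) ⊆ S := by
    intro g hg
    rw [hH] at hg
    induction hg using Subgroup.closure_induction with
    | mem g hg =>
      intro z hz
      refine (hS _).2 ⟨1, H.one_mem, z, ?_, (one_smul _ _).symm⟩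
      rw [hF0]
      exact Set.mem_insert_of_mem _ (Set.mem_biUnion hg hz)
    | one =>
      intro z hz
      have h1 : d v₀ z + d z ((1 : G) • v₀) = d v₀ ((1 : G) • v₀) := hz
      rw [one_smul, (hd.eq_iff v₀ v₀).2 rfl] at h1
      have h2 : v₀ = z := (hd.eq_iff v₀ z).1 (by omega)
      exact (hS _).2 ⟨1, H.one_mem, v₀, hv₀, by rw [one_smul, h2]⟩
    | mul x y hx hy ihx ihy =>
      intro z hz
      rcases hsub v₀ (x • v₀) ((x * y) • v₀) hz with h1 | h1
      · exact ihx h1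
      · rw [mul_smul] at h1
        exact hSinv x (by rw [hH]; exact hx) z (ihy (seg_smul hiso h1))
    | inv x hx ihx =>
      intro z hz
      have hz2 : (x⁻¹)⁻¹ • z ∈ seg d (x • v₀) v₀ := by
        refine seg_smul hiso ?_
        rw [inv_smul_smul]
        exact hz
      exact hSinv x⁻¹ (by rw [hH]; exact Subgroup.inv_mem _ hx) z (ihx (seg_symm hd hz2))
  refine hemb C hC V d hd H P (f.comp H.subtype) hCP (fun g a b => hiso g a b)
    (fun g a b => hinv g a b) v₀ S ?_ (fun g => hsegS g g.2) ?_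
  · exact (hS _).2 ⟨1, H.one_mem, v₀, hv₀, (one_smul _ _).symm⟩
  · intro v hv g hgv hfg
    obtain ⟨h, hh, p, hp, rfl⟩ := (hS _).1 hv
    have h1 : (h⁻¹ * (g : G) * h) • p = p := by
      have h2 : (g : G) • h • p = h • p := hgv
      rw [mul_smul, mul_smul, h2, inv_smul_smul]
    have h3 : f (g : G) = 1 := hfg
    have h4 : f (h⁻¹ * (g : G) * h) = 1 := by
      rw [map_mul, map_mul, h3, mul_one, map_inv, inv_mul_cancel]
    have h5 := hfree p hp _ h1 h4
    have h6 : (g : G) = 1 := by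
      have h7 : (g : G) = h * (h⁻¹ * (g : G) * h) * h⁻¹ := by group
      rw [h7, h5, mul_one, mul_inv_cancel]
    exact Subtype.ext h6

end Pool.Agent.NH98.TG
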